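import Pool.Agent.H69.SFA.Sr
import Pool.Agent.H85.SA.Stm

/-!
# [H69 SFA Pc] THEOREM SF, clause (4), chapter K3: computable families of polynomials

`PC F`, `UC F`, `IC F`: the family `F : α → ℤ[t,y]` (`ℤ[T]`, `ℤ`) has primitive recursive codes. Closure under the ring
operations, sums and products over ranges, `em`, `emT`, `shf`, `hm`, `hmu`, derivatives, coefficients. Equality, `Sz` and
bounds for coefficients are primitive recursive predicates. Introduction of existential quantifiers.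
-/

namespace Pool.Agent.H69.SFA

open MvPolynomial Pool.Agent.H8.Siegel Pool.Agent.H69.AL Pool.Agent.H98.AL Pool.Agent.H85.SA

variable {α β : Type*} [Primcodable α] [Primcodable β]

/-- the family of polynomials in two variables has primitive recursive codes -/
def PC (F : α → P2) : Prop := ∃ f : α → Code, Primrec f ∧ ∀ a, toPoly (f a) = F a

/-- the family of polynomials in one variable has primitive recursive codes -/
def UC (F : α → Polynomial ℤ) : Prop := ∃ f : α → Code, Primrec f ∧ ∀ a, uni (f a) = F a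

/-- the family of integers has primitive recursive codes -/
def IC (F : α → ℤ) : Prop := ∃ f : α → ℕ × ℕ, Primrec f ∧ ∀ a, iv (f a) = F a

/-! Integers. -/

namespace IC

variable {F G : α → ℤ}

theorem comp (h : IC F) {f : β → α} (hf : Primrec f) : IC fun b => F (f b) := by
  obtain ⟨u, hu, e⟩ := h
  exact ⟨fun b => u (f b), hu.comp hf, fun b => e (f b)⟩

theorem code {f : α → ℕ × ℕ} (hf : Primrec f) : IC fun a => iv (f a) := ⟨f, hf, fun _ => rfl⟩

theorem nat {f : α → ℕ} (hf : Primrec f) : IC fun a => (f a : ℤ) :=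
  ⟨fun a => (f a, 0), Primrec.pair hf (Primrec.const 0), fun a => by simp [iv]⟩

theorem const (z : ℤ) : IC fun _ : α => z :=
  ⟨fun _ => (z.toNat, (-z).toNat), Primrec.const _, fun _ => by
    show ((z.toNat : ℕ) : ℤ) - ((-z).toNat : ℕ) = z
    omega⟩

theorem add (hF : IC F) (hG : IC G) : IC fun a => F a + G a := by
  obtain ⟨f, hf, e⟩ := hF
  obtain ⟨g, hg, e'⟩ := hG
  refine ⟨fun a => ((f a).1 + (g a).1, (f a).2 + (g a).2),
    Primrec.pair (Primrec.nat_add.comp (Primrec.fst.comp hf) (Primrec.fst.comp hg))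
      (Primrec.nat_add.comp (Primrec.snd.comp hf) (Primrec.snd.comp hg)), fun a => ?_⟩
  beta_reduce
  rw [← e, ← e', iv, iv, iv]
  push_cast
  ring

theorem neg (hF : IC F) : IC fun a => -F a := by
  obtain ⟨f, hf, e⟩ := hF
  refine ⟨fun a => ((f a).2, (f a).1), Primrec.pair (Primrec.snd.comp hf) (Primrec.fst.comp hf),
    fun a => ?_⟩
  beta_reduce
  rw [← e, iv, iv]
  ring

theorem sub (hF : IC F) (hG : IC G) : IC fun a => F a - G a := by
  simpa only [sub_eq_add_neg] using hF.add hG.neg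

theorem mul (hF : IC F) (hG : IC G) : IC fun a => F a * G a := by
  obtain ⟨f, hf, e⟩ := hF
  obtain ⟨g, hg, e'⟩ := hG
  refine ⟨fun a => ((f a).1 * (g a).1 + (f a).2 * (g a).2, (f a).1 * (g a).2 + (f a).2 * (g a).1),
    Primrec.pair (Primrec.nat_add.comp (Primrec.nat_mul.comp (Primrec.fst.comp hf)
        (Primrec.fst.comp hg)) (Primrec.nat_mul.comp (Primrec.snd.comp hf) (Primrec.snd.comp hg)))
      (Primrec.nat_add.comp (Primrec.nat_mul.comp (Primrec.fst.comp hf) (Primrec.snd.comp hg))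
        (Primrec.nat_mul.comp (Primrec.snd.comp hf) (Primrec.fst.comp hg))), fun a => ?_⟩
  beta_reduce
  rw [← e, ← e', iv, iv, iv]
  push_cast
  ring

theorem le (hF : IC F) (hG : IC G) : PrimrecPred fun a => F a ≤ G a := by
  obtain ⟨f, hf, e⟩ := hF
  obtain ⟨g, hg, e'⟩ := hG
  have h : PrimrecPred fun a => (f a).1 + (g a).2 ≤ (g a).1 + (f a).2 :=
    PrimrecRel.comp Primrec.nat_le
      (Primrec.nat_add.comp (Primrec.fst.comp hf) (Primrec.snd.comp hg))
      (Primrec.nat_add.comp (Primrec.fst.comp hg) (Primrec.snd.comp hf))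
  refine h.of_eq fun a => ?_
  rw [← e, ← e', iv, iv]
  omega

theorem eq (hF : IC F) (hG : IC G) : PrimrecPred fun a => F a = G a :=
  ((hF.le hG).and (hG.le hF)).of_eq fun _ => ⟨fun h => le_antisymm h.1 h.2,
    fun h => ⟨h.le, h.ge⟩⟩

theorem ne (hF : IC F) (hG : IC G) : PrimrecPred fun a => F a ≠ G a := (hF.eq hG).not

theorem natAbs (hF : IC F) : Primrec fun a => (F a).natAbs := by
  obtain ⟨f, hf, e⟩ := hF
  refine (primrec_ivAbs.comp hf).of_eq fun a => ?_
  have h := ivAbs_eq (f a)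
  rw [e] at h
  exact Nat.cast_injective (R := ℤ) (h.trans (Int.natCast_natAbs _).symm)

end IC

/-! Sums of natural numbers. -/

theorem primrec_sumN {f : α → ℕ → ℕ} {n : α → ℕ} (hf : Primrec fun p : α × ℕ => f p.1 p.2)
    (hn : Primrec n) : Primrec fun a => ∑ i ∈ Finset.range (n a), f a i := by
  have h1 : Primrec fun a => ((List.range (n a)).map (f a)).foldr (fun x y => x + y) 0 := by
    refine Primrec.list_foldr (Primrec.list_map (Primrec.list_range.comp hn) hf)
      (Primrec.const 0) (h := fun (_ : α) (p : ℕ × ℕ) => p.1 + p.2) ?_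
    exact Primrec.nat_add.comp (Primrec.fst.comp Primrec.snd) (Primrec.snd.comp Primrec.snd)
  refine h1.of_eq fun a => ?_
  have h2 : ∀ l : List ℕ, l.foldr (fun x y => x + y) 0 = l.sum := fun l => by
    induction l with
    | nil => rfl
    | cons b l ih => rw [List.foldr_cons, ih, List.sum_cons]
  rw [h2]
  generalize n a = m
  induction m with
  | zero => simp
  | succ m ih => rw [List.sum_range_succ, ih, Finset.sum_range_succ]

/-! Polynomials in two variables. -/

namespace PC

variable {F G : α → P2}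

theorem comp (h : PC F) {f : β → α} (hf : Primrec f) : PC fun b => F (f b) := by
  obtain ⟨u, hu, e⟩ := h
  exact ⟨fun b => u (f b), hu.comp hf, fun b => e (f b)⟩

theorem code {f : α → Code} (hf : Primrec f) : PC fun a => toPoly (f a) := ⟨f, hf, fun _ => rfl⟩

theorem C {z : α → ℤ} (hz : IC z) : PC fun a => (MvPolynomial.C (z a) : P2) := by
  obtain ⟨u, hu, e⟩ := hz
  refine ⟨fun a => constC (u a), primrec_constC.comp hu, fun a => ?_⟩
  beta_reduce
  rw [toPoly_constC, ← e]
  rfl

theorem X0 : PC fun _ : α => (X 0 : P2) :=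
  ⟨fun _ => [(1, 0, 1, 0)], Primrec.const _, fun _ => by simp [term]⟩

theorem X1 : PC fun _ : α => (X 1 : P2) :=
  ⟨fun _ => [(1, 0, 0, 1)], Primrec.const _, fun _ => by simp [term]⟩

theorem one : PC fun _ : α => (1 : P2) := ⟨fun _ => [(1, 0, 0, 0)], Primrec.const _, fun _ => toPoly_one⟩

theorem add (hF : PC F) (hG : PC G) : PC fun a => F a + G a := by
  obtain ⟨f, hf, e⟩ := hF
  obtain ⟨g, hg, e'⟩ := hG
  exact ⟨fun a => f a ++ g a, Primrec.list_append.comp hf hg, fun a => by
    rw [toPoly_append, e, e']⟩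

theorem neg (hF : PC F) : PC fun a => -F a := by
  obtain ⟨f, hf, e⟩ := hF
  exact ⟨fun a => negC (f a), primrec_negC.comp hf, fun a => by rw [toPoly_negC, e]⟩

theorem sub (hF : PC F) (hG : PC G) : PC fun a => F a - G a := by
  simpa only [sub_eq_add_neg] using hF.add hG.neg

theorem mul (hF : PC F) (hG : PC G) : PC fun a => F a * G a := by
  obtain ⟨f, hf, e⟩ := hF
  obtain ⟨g, hg, e'⟩ := hG
  exact ⟨fun a => mulC (f a) (g a), primrec_mulC.comp hf hg, fun a => by
    rw [toPoly_mulC, e, e']⟩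

theorem pow (hF : PC F) {n : α → ℕ} (hn : Primrec n) : PC fun a => F a ^ n a := by
  obtain ⟨f, hf, e⟩ := hF
  exact ⟨fun a => powC (f a) (n a), primrec_powC.comp hf hn, fun a => by rw [toPoly_powC, e]⟩

theorem sum {F : α → ℕ → P2} {n : α → ℕ} (hF : PC fun p : α × ℕ => F p.1 p.2) (hn : Primrec n) :
    PC fun a => ∑ i ∈ Finset.range (n a), F a i := by
  obtain ⟨f, hf, e⟩ := hF
  exact ⟨fun a => sumC (fun i => f (a, i)) (n a), primrec_sumC (f := fun a i => f (a, i)) hf hn,
    fun a => by rw [toPoly_sumC]; exact Finset.sum_congr rfl fun i _ => e (a, i)⟩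

theorem prod {F : α → ℕ → P2} {n : α → ℕ} (hF : PC fun p : α × ℕ => F p.1 p.2) (hn : Primrec n) :
    PC fun a => ∏ i ∈ Finset.range (n a), F a i := by
  obtain ⟨f, hf, e⟩ := hF
  exact ⟨fun a => prodC (fun i => f (a, i)) (n a), primrec_prodC (f := fun a i => f (a, i)) hf hn,
    fun a => by rw [toPoly_prodC]; exact Finset.prod_congr rfl fun i _ => e (a, i)⟩

theorem eq (hF : PC F) (hG : PC G) : PrimrecPred fun a => F a = G a := by
  obtain ⟨f, hf, e⟩ := hF
  obtain ⟨g, hg, e'⟩ := hG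
  refine (PrimrecRel.comp primrec_eqC hf hg).of_eq fun a => ?_
  rw [eqC_iff, e, e']

theorem coeff (hF : PC F) {i j : α → ℕ} (hi : Primrec i) (hj : Primrec j) :
    IC fun a => MvPolynomial.coeff (ex (i a) (j a)) (F a) := by
  obtain ⟨f, hf, e⟩ := hF
  refine ⟨fun a => (cP (f a) (i a) (j a), cN (f a) (i a) (j a)),
    Primrec.pair (primrec_cP.comp (Primrec.pair hf (Primrec.pair hi hj)))
      (primrec_cN.comp (Primrec.pair hf (Primrec.pair hi hj))), fun a => ?_⟩
  beta_reduce
  rw [← e, coeff_ex]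
  rfl

theorem totalDegree (hF : PC F) : Primrec fun a => (F a).totalDegree := by
  obtain ⟨f, hf, e⟩ := hF
  exact (primrec_tdC.comp hf).of_eq fun a => by rw [tdC_eq, e]

theorem shf (hF : PC F) {c : α → ℕ} (hc : Primrec c) : PC fun a => H98.AL.shf (c a) (F a) := by
  obtain ⟨f, hf, e⟩ := hF
  exact ⟨fun a => shC (f a) (c a), primrec_shC.comp hf hc, fun a => by rw [toPoly_shC', e]⟩

/-- all coefficients are bounded -/
theorem height (hF : PC F) {Z : α → ℕ} (hZ : Primrec Z) :
    PrimrecPred fun a => ∀ t, |MvPolynomial.coeff t (F a)| ≤ (Z a : ℤ) := by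
  obtain ⟨f, hf, e⟩ := hF
  refine (PrimrecRel.comp Primrec.nat_le (primrec_htC.comp hf) hZ).of_eq fun a => ?_
  rw [htC_le, e]

end PC

/-! Polynomials in one variable. -/

theorem uni_negC (c : Code) : uni (negC c) = -uni c := by
  induction c with
  | nil => simp [uni, negC]
  | cons t c ih =>
    have h : negC (t :: c) = (t.2.1, t.1, t.2.2.1, t.2.2.2) :: negC c := rfl
    have h2 : ∀ (s : T4) (d : Code), uni (s :: d) = uterm s + uni d := fun s d => by simp [uni]
    rw [h, h2, h2, ih, neg_add]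
    congr 1
    simp only [uterm]
    rw [← neg_mul, ← map_neg, neg_sub]

/-- the codes of the derivative -/
def derC (c : Code) : Code := c.map fun t => (t.1 * t.2.2.1, t.2.1 * t.2.2.1, t.2.2.1 - 1, 0)

theorem uni_derC (c : Code) : uni (derC c) = Polynomial.derivative (uni c) := by
  induction c with
  | nil => simp [uni, derC]
  | cons t c ih =>
    have h : derC (t :: c) = (t.1 * t.2.2.1, t.2.1 * t.2.2.1, t.2.2.1 - 1, 0) :: derC c := rfl
    have h2 : ∀ (s : T4) (d : Code), uni (s :: d) = uterm s + uni d := fun s d => by simp [uni]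
    rw [h, h2, h2, ih, Polynomial.derivative_add]
    congr 1
    simp only [uterm]
    rw [Polynomial.derivative_C_mul, Polynomial.derivative_X_pow]
    push_cast
    rw [← sub_mul, map_mul]
    simp only [map_natCast, map_sub]
    ring

/-- `s(y)` on codes -/
def swC (c : Code) : Code := c.map fun t => (t.1, t.2.1, 0, t.2.2.1)

theorem toPoly_uniC (c : Code) : toPoly (uniC c) = H85.SA.em (uni c) := by
  induction c with
  | nil => simp [uniC, uni, H85.SA.em]
  | cons t c ih =>
    have h : uniC (t :: c) = (t.1, t.2.1, t.2.2.1, 0) :: uniC c := rfl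
    have h2 : uni (t :: c) = uterm t + uni c := by simp [uni]
    rw [h, toPoly_cons, ih, h2, H85.SA.em, H85.SA.em, map_add]
    congr 1
    simp only [term, uterm]
    rw [map_mul, map_pow, Polynomial.aeval_X, Polynomial.aeval_C, pow_zero, mul_one]
    rfl

theorem toPoly_swC (c : Code) : toPoly (swC c) = emT (uni c) := by
  induction c with
  | nil => simp [swC, uni, emT]
  | cons t c ih =>
    have h : swC (t :: c) = (t.1, t.2.1, 0, t.2.2.1) :: swC c := rfl
    have h2 : uni (t :: c) = uterm t + uni c := by simp [uni]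
    rw [h, toPoly_cons, ih, h2, emT, emT, map_add]
    congr 1
    simp only [term, uterm]
    rw [map_mul, map_pow, Polynomial.aeval_X, Polynomial.aeval_C, pow_zero, mul_one]
    rfl

theorem em_inj {s t : Polynomial ℤ} (h : H85.SA.em s = H85.SA.em t) : s = t := by
  have h1 : ∀ s : Polynomial ℤ, MvPolynomial.aeval (fun _ : Fin 2 => (Polynomial.X : Polynomial ℤ))
      (H85.SA.em s) = s := fun s => by
    rw [H85.SA.em, ← Polynomial.aeval_algHom_apply, MvPolynomial.aeval_X, Polynomial.aeval_X_left_apply]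
  rw [← h1 s, ← h1 t, h]

theorem em_C (z : ℤ) : H85.SA.em (Polynomial.C z) = MvPolynomial.C z := by
  rw [H85.SA.em, Polynomial.aeval_C]
  rfl

theorem coeff_em (s : Polynomial ℤ) (i : ℕ) : MvPolynomial.coeff (ex i 0) (H85.SA.em s) = s.coeff i := by
  obtain ⟨c, rfl⟩ := exists_uni s
  rw [← toPoly_uniC, coeff_uniC]
  rw [ex_zero, ex_one, if_pos rfl]

namespace UC

variable {F G : α → Polynomial ℤ}

theorem comp (h : UC F) {f : β → α} (hf : Primrec f) : UC fun b => F (f b) := by
  obtain ⟨u, hu, e⟩ := h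
  exact ⟨fun b => u (f b), hu.comp hf, fun b => e (f b)⟩

theorem code {f : α → Code} (hf : Primrec f) : UC fun a => uni (f a) := ⟨f, hf, fun _ => rfl⟩

theorem C {z : α → ℤ} (hz : IC z) : UC fun a => Polynomial.C (z a) := by
  obtain ⟨u, hu, e⟩ := hz
  refine ⟨fun a => constC (u a), primrec_constC.comp hu, fun a => ?_⟩
  beta_reduce
  rw [← e]
  simp [constC, uni, uterm, iv]

theorem X : UC fun _ : α => (Polynomial.X : Polynomial ℤ) :=
  ⟨fun _ => [(1, 0, 1, 0)], Primrec.const _, fun _ => by simp [uni, uterm]⟩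

theorem add (hF : UC F) (hG : UC G) : UC fun a => F a + G a := by
  obtain ⟨f, hf, e⟩ := hF
  obtain ⟨g, hg, e'⟩ := hG
  exact ⟨fun a => f a ++ g a, Primrec.list_append.comp hf hg, fun a => by
    rw [uni_append, e, e']⟩

theorem neg (hF : UC F) : UC fun a => -F a := by
  obtain ⟨f, hf, e⟩ := hF
  exact ⟨fun a => negC (f a), primrec_negC.comp hf, fun a => by rw [uni_negC, e]⟩

theorem sub (hF : UC F) (hG : UC G) : UC fun a => F a - G a := by
  simpa only [sub_eq_add_neg] using hF.add hG.neg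

theorem mul (hF : UC F) (hG : UC G) : UC fun a => F a * G a := by
  obtain ⟨f, hf, e⟩ := hF
  obtain ⟨g, hg, e'⟩ := hG
  exact ⟨fun a => mulC (f a) (g a), primrec_mulC.comp hf hg, fun a => by
    rw [uni_mulC, e, e']⟩

theorem sum {F : α → ℕ → Polynomial ℤ} {n : α → ℕ} (hF : UC fun p : α × ℕ => F p.1 p.2)
    (hn : Primrec n) : UC fun a => ∑ i ∈ Finset.range (n a), F a i := by
  obtain ⟨f, hf, e⟩ := hF
  exact ⟨fun a => sumC (fun i => f (a, i)) (n a), primrec_sumC (f := fun a i => f (a, i)) hf hn,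
    fun a => by rw [uni_sumC]; exact Finset.sum_congr rfl fun i _ => e (a, i)⟩

theorem prod {F : α → ℕ → Polynomial ℤ} {n : α → ℕ} (hF : UC fun p : α × ℕ => F p.1 p.2)
    (hn : Primrec n) : UC fun a => ∏ i ∈ Finset.range (n a), F a i := by
  obtain ⟨f, hf, e⟩ := hF
  exact ⟨fun a => prodC (fun i => f (a, i)) (n a), primrec_prodC (f := fun a i => f (a, i)) hf hn,
    fun a => by rw [uni_prodC]; exact Finset.prod_congr rfl fun i _ => e (a, i)⟩

theorem pow (hF : UC F) {n : α → ℕ} (hn : Primrec n) : UC fun a => F a ^ n a := by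
  have h := prod (F := fun a _ => F a) (hF.comp Primrec.fst) hn
  simpa only [Finset.prod_const, Finset.card_range] using h

theorem derivative (hF : UC F) : UC fun a => Polynomial.derivative (F a) := by
  obtain ⟨f, hf, e⟩ := hF
  refine ⟨fun a => derC (f a), ?_, fun a => by rw [uni_derC, e]⟩
  unfold derC
  refine Primrec.list_map hf ?_
  exact mk4 (Primrec.nat_mul.comp (pr1 Primrec.snd) (pr3 Primrec.snd))
    (Primrec.nat_mul.comp (pr2 Primrec.snd) (pr3 Primrec.snd))
    (Primrec.nat_sub.comp (pr3 Primrec.snd) (Primrec.const 1)) (Primrec.const 0)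

theorem em (hF : UC F) : PC fun a => H85.SA.em (F a) := by
  obtain ⟨f, hf, e⟩ := hF
  exact ⟨fun a => uniC (f a), primrec_uniC.comp hf, fun a => by rw [toPoly_uniC, e]⟩

theorem emT (hF : UC F) : PC fun a => H85.SA.emT (F a) := by
  obtain ⟨f, hf, e⟩ := hF
  refine ⟨fun a => swC (f a), ?_, fun a => by rw [toPoly_swC, e]⟩
  unfold swC
  refine Primrec.list_map hf ?_
  exact mk4 (pr1 Primrec.snd) (pr2 Primrec.snd) (Primrec.const 0) (pr3 Primrec.snd)

theorem eq (hF : UC F) (hG : UC G) : PrimrecPred fun a => F a = G a :=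
  (hF.em.eq hG.em).of_eq fun _ => ⟨em_inj, fun h => by rw [h]⟩

theorem ne_zero (hF : UC F) : PrimrecPred fun a => F a ≠ 0 := by
  have h : UC fun _ : α => (0 : Polynomial ℤ) := ⟨fun _ => [], Primrec.const _, fun _ => by simp [uni]⟩
  exact (hF.eq h).not

theorem natDegree (hF : UC F) : Primrec fun a => (F a).natDegree := by
  obtain ⟨f, hf, e⟩ := hF
  exact (primrec_udC.comp hf).of_eq fun a => by rw [udC_eq, e]

theorem coeff (hF : UC F) {i : α → ℕ} (hi : Primrec i) : IC fun a => (F a).coeff (i a) := by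
  have h := hF.em.coeff hi (Primrec.const 0)
  simpa only [coeff_em] using h

theorem sz (hF : UC F) {Z : α → ℕ} (hZ : Primrec Z) : PrimrecPred fun a => Sz (Z a) (F a) := by
  have h1 : PrimrecPred fun a => (F a).natDegree ≤ Z a := PrimrecRel.comp Primrec.nat_le hF.natDegree hZ
  have h2 : Primrec fun a => ∑ i ∈ Finset.range (Z a + 1), ((F a).coeff i).natAbs :=
    primrec_sumN (f := fun a i => ((F a).coeff i).natAbs)
      (((hF.comp Primrec.fst).coeff Primrec.snd).natAbs) (Primrec.succ.comp hZ)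
  refine (h1.and (PrimrecRel.comp Primrec.nat_le h2 hZ)).of_eq fun a => ?_
  rw [Sz]
  refine and_congr Iff.rfl ?_
  rw [← Nat.cast_le (α := ℤ)]
  push_cast
  rfl

/-- `hm` -/
theorem hm (hF : UC F) {e : α → ℕ} (he : Primrec e) {A B : α → P2} (hA : PC A) (hB : PC B) :
    PC fun a => H98.AL.hm (F a) (e a) (A a) (B a) := by
  have h := PC.sum (F := fun a l => (((F a).coeff l : ℤ) : P2) * A a ^ l * B a ^ (e a - l)) ?_
    (Primrec.succ.comp he)
  · exact h
  · have h1 : PC fun p : α × ℕ => (MvPolynomial.C ((F p.1).coeff p.2) : P2) :=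
      PC.C ((hF.comp Primrec.fst).coeff Primrec.snd)
    have h2 := (h1.mul ((hA.comp Primrec.fst).pow Primrec.snd)).mul
      ((hB.comp Primrec.fst).pow (Primrec.nat_sub.comp (he.comp Primrec.fst) Primrec.snd))
    refine (show (fun p : α × ℕ => (((F p.1).coeff p.2 : ℤ) : P2) * A p.1 ^ p.2 *
      B p.1 ^ (e p.1 - p.2)) = _ from ?_) ▸ h2
    funext p
    rw [← eq_intCast (MvPolynomial.C : ℤ →+* P2)]

/-- `hmu` -/
theorem hmu (hF : UC F) {l : α → ℕ} (hl : Primrec l) (hG : UC G) {μ : α → ℤ} (hμ : IC μ) :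
    UC fun a => H85.SA.hmu (F a) (l a) (G a) (μ a) := by
  have hp : IC fun p : α × ℕ => μ p.1 ^ (l p.1 - p.2) := by
    have h1 : UC fun p : α × ℕ => Polynomial.C (μ p.1) ^ (l p.1 - p.2) :=
      (UC.C (hμ.comp Primrec.fst)).pow (Primrec.nat_sub.comp (hl.comp Primrec.fst) Primrec.snd)
    have h2 := h1.coeff (Primrec.const 0)
    simpa only [← Polynomial.C_pow, Polynomial.coeff_C_zero] using h2
  exact UC.sum (F := fun a h => Polynomial.C ((F a).coeff h * μ a ^ (l a - h)) * G a ^ h)
    ((UC.C (((hF.comp Primrec.fst).coeff Primrec.snd).mul hp)).mul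
      ((hG.comp Primrec.fst).pow Primrec.snd)) (Primrec.succ.comp hl)

end UC

/-! Introduction of quantifiers. -/

namespace SR

theorem exP {P : α → P2 → Prop} (h : SR fun p : α × Code => P p.1 (toPoly p.2)) :
    SR fun a => ∃ F : P2, P a F :=
  (SR.ex (P := fun (a : α) (c : Code) => P a (toPoly c)) h).of_iff fun a =>
    ⟨fun ⟨F, hF⟩ => by
      obtain ⟨c, rfl⟩ := exists_code F
      exact ⟨c, hF⟩, fun ⟨c, hc⟩ => ⟨_, hc⟩⟩

theorem exU {P : α → Polynomial ℤ → Prop} (h : SR fun p : α × Code => P p.1 (uni p.2)) :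
    SR fun a => ∃ F : Polynomial ℤ, P a F :=
  (SR.ex (P := fun (a : α) (c : Code) => P a (uni c)) h).of_iff fun a =>
    ⟨fun ⟨F, hF⟩ => by
      obtain ⟨c, rfl⟩ := exists_uni F
      exact ⟨c, hF⟩, fun ⟨c, hc⟩ => ⟨_, hc⟩⟩

theorem exI {P : α → ℤ → Prop} (h : SR fun p : α × (ℕ × ℕ) => P p.1 (iv p.2)) :
    SR fun a => ∃ z : ℤ, P a z :=
  (SR.ex (P := fun (a : α) (c : ℕ × ℕ) => P a (iv c)) h).of_iff fun a =>
    ⟨fun ⟨F, hF⟩ => by
      obtain ⟨c, rfl⟩ := exists_iv F
      exact ⟨c, hF⟩, fun ⟨c, hc⟩ => ⟨_, hc⟩⟩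

/-- families of polynomials in one variable; `P` depends only on the members `i < n a` -/
theorem exUf {P : α → (ℕ → Polynomial ℤ) → Prop} (n : α → ℕ)
    (hc : ∀ a f g, (∀ i < n a, f i = g i) → P a f → P a g)
    (h : SR fun p : α × List Code => P p.1 fun i => uni (nth p.2 i)) :
    SR fun a => ∃ f : ℕ → Polynomial ℤ, P a f :=
  (SR.ex (P := fun (a : α) (c : List Code) => P a fun i => uni (nth c i)) h).of_iff fun a =>
    ⟨fun ⟨f, hf⟩ => by
      obtain ⟨l, hl⟩ := exists_unth f (n a)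
      exact ⟨l, hc a _ _ (fun i hi => (hl i hi).symm) hf⟩, fun ⟨c, h⟩ => ⟨_, h⟩⟩

/-- families of polynomials in two variables; `P` depends only on the members `i < n a` -/
theorem exPf {P : α → (ℕ → P2) → Prop} (n : α → ℕ)
    (hc : ∀ a f g, (∀ i < n a, f i = g i) → P a f → P a g)
    (h : SR fun p : α × List Code => P p.1 fun i => toPoly (nth p.2 i)) :
    SR fun a => ∃ f : ℕ → P2, P a f :=
  (SR.ex (P := fun (a : α) (c : List Code) => P a fun i => toPoly (nth c i)) h).of_iff fun a =>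
    ⟨fun ⟨f, hf⟩ => by
      obtain ⟨l, hl⟩ := exists_nth f (n a)
      exact ⟨l, hc a _ _ (fun i hi => (hl i hi).symm) hf⟩, fun ⟨c, h⟩ => ⟨_, h⟩⟩

end SR

end Pool.Agent.H69.SFA
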