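import Pool.Agent.H69.SFA.Fc
import Pool.Agent.H99.SFA.Jts

/-!
# [H69 SFA Cer] THEOREM SF, clause (4), chapter K3: the existence of a certificate of size `Z` is recursively enumerable
-/

namespace Pool.Agent.H69.SFA

open MvPolynomial Pool.Agent.H8.Siegel Pool.Agent.H69.AL Pool.Agent.H98.AL Pool.Agent.H85.SA

theorem sr_cer {α : Type*} [Primcodable α] {F : α → P2} (hF : PC F) {q : α → Polynomial ℤ}
    (hq : UC q) {κ Z : α → ℕ} (hκ : Primrec κ) (hZ : Primrec Z) :
    SR fun a => ∃ d, Cer (F a) (q a) (κ a) (Z a) d := by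
  refine sr_cer_of hF hq hκ hZ ?_
  have hx : Primrec fun p : α × DC => p.2 := Primrec.snd
  refine H99.SFA.sr_jets (q := fun p : α × DC => q p.1) (d := fun p : α × DC => dOf p.2)
    (hq.comp Primrec.fst) (dc_s hx) (dc_W hx) (dc_m hx) (dc_l hx) ?_
  have i1 : Primrec fun p : (α × DC) × ℕ × ℕ × ℕ => p.1.2 := Primrec.snd.comp Primrec.fst
  exact dc_b i1 (Primrec.fst.comp Primrec.snd) (Primrec.fst.comp (Primrec.snd.comp Primrec.snd))
    (Primrec.snd.comp (Primrec.snd.comp Primrec.snd))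

end Pool.Agent.H69.SFA
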