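import Pool.Agent.H69.SFA.Dc
import Pool.Agent.H99.SFA.JtsP

/-!
# [H69 SFA CerP] THEOREM SF, phase 3 (radicals), chapter K3: certificates of type 3 are recursively enumerable

`sr_cerP0`: field by field; `jetsP_congr`, `cerP_congr`, `exists_cerP`: every certificate has a code;
`sr_cerP`, `sr_ex_cerP`: the final forms.
-/

namespace Pool.Agent.H69.SFA

open MvPolynomial Pool.Agent.H8.Siegel Pool.Agent.H69.AL Pool.Agent.H98.AL Pool.Agent.H85.SA
open Pool.Agent.H85.SB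

theorem jetsP_congr {q : Polynomial ℤ} {t : ℕ} {d d' : Dt} (h : JetsP q t d) (hs : d'.s = d.s)
    (hm : d'.m = d.m) (hl : d'.l = d.l)
    (hb : ∀ k < d.m, ∀ i < d.s, ∀ u < 2 * t + 1, d'.b k i u = d.b k i u)
    (hp : ∀ k < 2 * t + 1, ∀ j < q.natDegree, prf q.natDegree t k j ≤ 2 * t + 1) : JetsP q t d' := by
  obtain ⟨M, μ, ν, ro, Q, h1, h2, h3, h4, h5⟩ := h
  refine ⟨M, μ, ν, ro, Q, h1, h2, h3, h4, ?_⟩
  rw [hs, hm, hl]
  intro k hk j₀ hj₀ i₁ hi₁ u₁ hu₁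
  obtain ⟨w, ν', hν', h6⟩ := h5 k hk j₀ hj₀ i₁ hi₁ u₁ hu₁
  refine ⟨w, ν', hν', fun j hj i hi u hu => ?_⟩
  obtain ⟨κ, R, hκ, h7⟩ := h6 j hj i hi u hu
  refine ⟨κ, R, hκ, ?_⟩
  rw [← h7]
  have hu4 : u < 2 * t + 1 := lt_of_lt_of_le hu (hp k hk j hj)
  have h8 : ∑ k' ∈ Finset.range d.m, w k' * hmu (d'.b k' i u) d.l (ro j) μ =
      ∑ k' ∈ Finset.range d.m, w k' * hmu (d.b k' i u) d.l (ro j) μ :=
    Finset.sum_congr rfl fun k' hk' => by rw [hb k' (Finset.mem_range.1 hk') i hi u hu4]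
  rw [h8]

theorem prf_le' (r t k j : ℕ) (hk : k < 2 * t + 1) : prf r t k j ≤ 2 * t + 1 := by
  unfold prf
  split_ifs <;> omega

theorem cerP_congr {F : P2} {q : Polynomial ℤ} {M t Z : ℕ} {d d' : Dt} (h : CerP F q M t Z d)
    (hc : d'.c = d.c) (he : d'.e = d.e) (hs : d'.s = d.s) (hW : d'.W = d.W) (hmm : d'.m = d.m)
    (hl : d'.l = d.l) (hD : d'.D = d.D) (hpi : d'.pi = d.pi) (hv : d'.v = d.v) (hg : d'.g = d.g)
    (heta : d'.eta = d.eta) (hlam0 : d'.lam0 = d.lam0) (hU : d'.U = d.U) (hV : d'.V = d.V)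
    (hN0 : d'.N0 = d.N0) (hz : ∀ i < d.s, d'.z i = d.z i) (hphi : ∀ k < d.m, d'.phi k = d.phi k)
    (hrho : ∀ k < d.m, d'.rho k = d.rho k) (hlam : ∀ k < d.m, d'.lam k = d.lam k)
    (hb : ∀ k < d.m, ∀ i < d.s, ∀ u < 4 * d.W, d'.b k i u = d.b k i u) : CerP F q M t Z d' := by
  have hUW : ∀ u < 2 * t + 1, u < 4 * d.W := fun u hu => by have := h.UW; omega
  exact {
    Z2 := h.Z2
    cZ := by rw [hc]; exact h.cZ
    lc := by rw [hc]; exact h.lc
    dZ := by rw [hc]; exact h.dZ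
    FZ := by rw [hc]; exact h.FZ
    e1 := by rw [he]; exact h.e1
    eZ := by rw [he]; exact h.eZ
    s1 := by rw [hs]; exact h.s1
    sZ := by rw [hs]; exact h.sZ
    MU := h.MU
    UW := by rw [hW]; exact h.UW
    WZ := by rw [hW]; exact h.WZ
    mZ := by rw [hmm]; exact h.mZ
    lZ := by rw [hl]; exact h.lZ
    D0 := by rw [hD]; exact h.D0
    DZ := by rw [hD]; exact h.DZ
    qZ := h.qZ
    eq1 := by rw [hc, he, hD, hpi, hv]; exact h.eq1
    bpi := by rw [hc, hD, hpi]; exact h.bpi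
    bv := by rw [hc, hD, hv]; exact h.bv
    bt := by rw [hc, he, hD, hpi]; exact h.bt
    bg := by rw [hc, hD, hg]; exact h.bg
    beta := by rw [hc, hD, heta]; exact h.beta
    eq2 := by rw [hc, hD, hg, heta, hpi]; exact h.eq2
    bz := by
      rw [hc, hD, hs]
      intro i hi
      rw [hz i hi]
      exact h.bz i hi
    brho := by
      rw [hc, hD, hmm]
      intro k hk
      rw [hrho k hk]
      exact h.brho k hk
    blb := by
      rw [hmm, hs, hl]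
      intro k hk i hi u hu
      rw [hb k hk i hi u (hUW u hu)]
      exact h.blb k hk i hi u hu
    eq4 := by
      rw [hc, hD, hmm, hpi, hl, hs, hg]
      intro k hk
      rw [hphi k hk, hrho k hk]
      have h1 : ∑ i ∈ Finset.range d.s, ∑ u ∈ Finset.range (2 * t + 1),
          hm (d'.b k i u) d.l d.g (em d.D) * d'.z i * d.pi ^ u * em d.D ^ (2 * t + 1 - u) =
          ∑ i ∈ Finset.range d.s, ∑ u ∈ Finset.range (2 * t + 1),
          hm (d.b k i u) d.l d.g (em d.D) * d.z i * d.pi ^ u * em d.D ^ (2 * t + 1 - u) :=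
        Finset.sum_congr rfl fun i hi => Finset.sum_congr rfl fun u hu => by
          rw [hb k hk i (Finset.mem_range.1 hi) u (hUW u (Finset.mem_range.1 hu)),
            hz i (Finset.mem_range.1 hi)]
      rw [h1]
      exact h.eq4 k hk
    ig := by
      rw [hc, hD, hmm]
      intro k hk
      rw [hphi k hk]
      exact h.ig k hk
    l0 := by rw [hlam0]; exact h.l0
    eq5 := by
      rw [hc, hD, hmm, hlam0]
      have h1 : ∑ k ∈ Finset.range d.m, MvPolynomial.C (d'.lam k) * d'.phi k =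
          ∑ k ∈ Finset.range d.m, MvPolynomial.C (d.lam k) * d.phi k :=
        Finset.sum_congr rfl fun k hk => by
          rw [hlam k (Finset.mem_range.1 hk), hphi k (Finset.mem_range.1 hk)]
      rw [h1]
      exact h.eq5
    n0 := by rw [hN0]; exact h.n0
    UZ := by rw [hU]; exact h.UZ
    VZ := by rw [hV]; exact h.VZ
    eq6 := by rw [hU, hV, hN0]; exact h.eq6
    jets := jetsP_congr h.jets hs hmm hl (fun k hk i hi u hu => hb k hk i hi u (hUW u hu))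
      fun k hk j _ => prf_le' _ _ _ _ hk }

/-- every certificate of type 3 has a code -/
theorem exists_cerP {F : P2} {q : Polynomial ℤ} {M t Z : ℕ} {d : Dt} (hd : CerP F q M t Z d) :
    ∃ x : DC, (dOf x).s = d.s ∧ CerP F q M t Z (dOf x) := by
  obtain ⟨x, h1, h2, h3, h4, h5, h6, h7, h8, h9, h10, h11, h12, h13, h14, h15, h16, h17, h18, h19,
    h20⟩ := exists_dc d
  exact ⟨x, h3, cerP_congr hd h1 h2 h3 h4 h5 h6 h7 h8 h9 h10 h11 h12 h13 h14 h15 h16 h17 h18 h19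
    h20⟩

variable {α : Type*} [Primcodable α]

theorem sr_cerP0 {F : α → P2} (hF : PC F) {q : α → Polynomial ℤ} (hq : UC q) {M t Z : α → ℕ}
    (hM : Primrec M) (ht : Primrec t) (hZ : Primrec Z) {x : α → DC} (hx : Primrec x)
    (hJ : SR fun a => JetsP (q a) (t a) (dOf (x a))) :
    SR fun a => CerP (F a) (q a) (M a) (t a) (Z a) (dOf (x a)) := by
  have hc := dc_c hx
  have he := dc_e hx
  have hs := dc_s hx
  have hW := dc_W hx
  have hm := dc_m hx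
  have hl := dc_l hx
  have hD := dc_D hx
  have hpi := dc_pi hx
  have hv := dc_v hx
  have hg := dc_g hx
  have heta := dc_eta hx
  have hU := dc_U hx
  have hV := dc_V hx
  have hlam0 := dc_lam0 hx
  have hN0 := dc_N0 hx
  -- the shifted curve
  have hG : PC fun a => H98.AL.shf (dOf (x a)).c (F a) := hF.shf hc
  have hG' : PC fun p : α × ℕ => H98.AL.shf (dOf (x p.1)).c (F p.1) := hG.comp Primrec.fst
  have hDe : PC fun a => H85.SA.em (dOf (x a)).D := hD.em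
  have hDe' : PC fun p : α × ℕ => H85.SA.em (dOf (x p.1)).D := hDe.comp Primrec.fst
  have hpi' : PC fun p : α × ℕ => (dOf (x p.1)).pi := hpi.comp Primrec.fst
  have hZ' : Primrec fun p : α × ℕ => Z p.1 := hZ.comp Primrec.fst
  have hx' : Primrec fun p : α × ℕ => x p.1 := hx.comp Primrec.fst
  have hT : Primrec fun a => 2 * t a + 1 :=
    Primrec.succ.comp (Primrec.nat_mul.comp (Primrec.const 2) ht)
  have htd : Primrec fun a => (H98.AL.shf (dOf (x a)).c (F a)).totalDegree := hG.totalDegree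
  have hqd : Primrec fun a => (q a).natDegree := hq.natDegree
  have leZ : ∀ {f : α → ℕ}, Primrec f → PrimrecPred fun a => f a ≤ Z a := fun hf =>
    PrimrecRel.comp Primrec.nat_le hf hZ
  have le1 : ∀ {f : α → ℕ}, Primrec f → PrimrecPred fun a => 1 ≤ f a := fun hf =>
    PrimrecRel.comp Primrec.nat_le (Primrec.const 1) hf
  -- the fields
  have a1 : PrimrecPred fun a => 2 ≤ Z a := leZ (Primrec.const 2)
  have a2 : PrimrecPred fun a => MvPolynomial.coeff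
      (Finsupp.single 1 (H98.AL.shf (dOf (x a)).c (F a)).totalDegree)
      (H98.AL.shf (dOf (x a)).c (F a)) ≠ 0 := by
    have h := (hG.coeff (Primrec.const 0) htd).ne (IC.const 0)
    have h0 : ∀ n : ℕ, ex 0 n = Finsupp.single 1 n := fun n => by simp [ex]
    simpa only [h0] using h
  have a3 := hG.height hZ
  have a4 := hD.ne_zero
  have a5 := hD.sz hZ
  have a6 := hq.sz hZ
  have m1 : PrimrecPred fun a => M a ≤ 2 * t a + 1 := PrimrecRel.comp Primrec.nat_le hM hT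
  have m2 : PrimrecPred fun a => 2 * t a + 1 ≤ (dOf (x a)).W := PrimrecRel.comp Primrec.nat_le hT hW
  have b1 := sr_eqv hG ((PC.X0.mul (hpi.pow he)).mul hv) (hDe.pow (Primrec.succ.comp he))
  have b2 := sr_bd hG hZ hDe hpi
  have b3 := sr_bd hG hZ hDe hv
  have b4 := sr_bd hG hZ (hDe.pow he) (PC.X0.mul (hpi.pow he))
  have b5 := sr_bd hG hZ hDe hg
  have b6 := sr_bd hG hZ hDe heta
  have b7 := sr_eqv hG ((hq.hm hqd hg hDe).mul (hDe.pow (Primrec.succ.comp hT)))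
    ((heta.mul (hpi.pow hT)).mul (hDe.pow hqd))
  have b8 : SR fun a => ∀ i < (dOf (x a)).s, Bd (H98.AL.shf (dOf (x a)).c (F a)) (Z a)
      (H85.SA.em (dOf (x a)).D) ((dOf (x a)).z i) :=
    SR.all (P := fun a i => Bd (H98.AL.shf (dOf (x a)).c (F a)) (Z a)
      (H85.SA.em (dOf (x a)).D) ((dOf (x a)).z i)) (sr_bd hG' hZ' hDe' (dc_z hx' Primrec.snd)) hs
  have b9 : SR fun a => ∀ k < (dOf (x a)).m, Bd (H98.AL.shf (dOf (x a)).c (F a)) (Z a)
      (H85.SA.em (dOf (x a)).D) ((dOf (x a)).rho k) :=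
    SR.all (P := fun a i => Bd (H98.AL.shf (dOf (x a)).c (F a)) (Z a)
      (H85.SA.em (dOf (x a)).D) ((dOf (x a)).rho i)) (sr_bd hG' hZ' hDe' (dc_rho hx' Primrec.snd)) hm
  have b10 : SR fun a => ∀ k < (dOf (x a)).m, Ig (H98.AL.shf (dOf (x a)).c (F a)) (Z a)
      (H85.SA.em (dOf (x a)).D) ((dOf (x a)).phi k) :=
    SR.all (P := fun a i => Ig (H98.AL.shf (dOf (x a)).c (F a)) (Z a)
      (H85.SA.em (dOf (x a)).D) ((dOf (x a)).phi i)) (sr_ig hG' hZ' hDe' (dc_phi hx' Primrec.snd)) hm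
  -- (c4)
  have c1 : SR fun a => ∀ k < (dOf (x a)).m, ∀ i < (dOf (x a)).s, ∀ u < 2 * t a + 1,
      ((dOf (x a)).b k i u).natDegree ≤ (dOf (x a)).l ∧ Sz (Z a) ((dOf (x a)).b k i u) := by
    have h3 : UC fun p : ((α × ℕ) × ℕ) × ℕ => (dOf (x p.1.1.1)).b p.1.1.2 p.1.2 p.2 :=
      dc_b (hx.comp (Primrec.fst.comp (Primrec.fst.comp Primrec.fst)))
        (Primrec.snd.comp (Primrec.fst.comp Primrec.fst)) (Primrec.snd.comp Primrec.fst) Primrec.snd
    have i3 : Primrec fun p : ((α × ℕ) × ℕ) × ℕ => p.1.1.1 :=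
      Primrec.fst.comp (Primrec.fst.comp Primrec.fst)
    have h2 : SR fun p : ((α × ℕ) × ℕ) × ℕ =>
        ((dOf (x p.1.1.1)).b p.1.1.2 p.1.2 p.2).natDegree ≤ (dOf (x p.1.1.1)).l ∧
          Sz (Z p.1.1.1) ((dOf (x p.1.1.1)).b p.1.1.2 p.1.2 p.2) :=
      SR.of_prim ((PrimrecRel.comp Primrec.nat_le h3.natDegree (hl.comp i3)).and
        (h3.sz (hZ.comp i3)))
    have h1 : SR fun p : (α × ℕ) × ℕ => ∀ u < 2 * t p.1.1 + 1,
        ((dOf (x p.1.1)).b p.1.2 p.2 u).natDegree ≤ (dOf (x p.1.1)).l ∧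
          Sz (Z p.1.1) ((dOf (x p.1.1)).b p.1.2 p.2 u) :=
      SR.all (P := fun (p : (α × ℕ) × ℕ) u =>
        ((dOf (x p.1.1)).b p.1.2 p.2 u).natDegree ≤ (dOf (x p.1.1)).l ∧
          Sz (Z p.1.1) ((dOf (x p.1.1)).b p.1.2 p.2 u)) h2
        (hT.comp (Primrec.fst.comp Primrec.fst))
    have h0 : SR fun p : α × ℕ => ∀ i < (dOf (x p.1)).s, ∀ u < 2 * t p.1 + 1,
        ((dOf (x p.1)).b p.2 i u).natDegree ≤ (dOf (x p.1)).l ∧
          Sz (Z p.1) ((dOf (x p.1)).b p.2 i u) :=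
      SR.all (P := fun (p : α × ℕ) i => ∀ u < 2 * t p.1 + 1,
        ((dOf (x p.1)).b p.2 i u).natDegree ≤ (dOf (x p.1)).l ∧
          Sz (Z p.1) ((dOf (x p.1)).b p.2 i u)) h1 (hs.comp Primrec.fst)
    exact SR.all (P := fun a k => ∀ i < (dOf (x a)).s, ∀ u < 2 * t a + 1,
      ((dOf (x a)).b k i u).natDegree ≤ (dOf (x a)).l ∧ Sz (Z a) ((dOf (x a)).b k i u)) h0 hm
  have c2 : SR fun a => ∀ k < (dOf (x a)).m, Eqv (H98.AL.shf (dOf (x a)).c (F a))
      ((dOf (x a)).pi ^ (M a) * (dOf (x a)).phi k *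
        H85.SA.em (dOf (x a)).D ^ ((dOf (x a)).l + (2 * t a + 1) - M a))
      ((∑ i ∈ Finset.range (dOf (x a)).s, ∑ u ∈ Finset.range (2 * t a + 1),
        H98.AL.hm ((dOf (x a)).b k i u) (dOf (x a)).l (dOf (x a)).g (H85.SA.em (dOf (x a)).D) *
          (dOf (x a)).z i * (dOf (x a)).pi ^ u *
          H85.SA.em (dOf (x a)).D ^ (2 * t a + 1 - u)) +
        (dOf (x a)).rho k * (dOf (x a)).pi ^ (2 * t a + 1) *
          H85.SA.em (dOf (x a)).D ^ (dOf (x a)).l) := by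
    have i3 : Primrec fun p : ((α × ℕ) × ℕ) × ℕ => p.1.1.1 :=
      Primrec.fst.comp (Primrec.fst.comp Primrec.fst)
    have h3 : UC fun p : ((α × ℕ) × ℕ) × ℕ => (dOf (x p.1.1.1)).b p.1.1.2 p.1.2 p.2 :=
      dc_b (hx.comp i3) (Primrec.snd.comp (Primrec.fst.comp Primrec.fst))
        (Primrec.snd.comp Primrec.fst) Primrec.snd
    have h2 : PC fun p : ((α × ℕ) × ℕ) × ℕ =>
        H98.AL.hm ((dOf (x p.1.1.1)).b p.1.1.2 p.1.2 p.2) (dOf (x p.1.1.1)).l
          (dOf (x p.1.1.1)).g (H85.SA.em (dOf (x p.1.1.1)).D) *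
          (dOf (x p.1.1.1)).z p.1.2 * (dOf (x p.1.1.1)).pi ^ p.2 *
          H85.SA.em (dOf (x p.1.1.1)).D ^ (2 * t p.1.1.1 + 1 - p.2) :=
      (((h3.hm (hl.comp i3) (hg.comp i3) (hDe.comp i3)).mul
        (dc_z (hx.comp i3) (Primrec.snd.comp Primrec.fst))).mul
        ((hpi.comp i3).pow Primrec.snd)).mul
        ((hDe.comp i3).pow (Primrec.nat_sub.comp (hT.comp i3) Primrec.snd))
    have h1 : PC fun p : (α × ℕ) × ℕ => ∑ u ∈ Finset.range (2 * t p.1.1 + 1),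
        H98.AL.hm ((dOf (x p.1.1)).b p.1.2 p.2 u) (dOf (x p.1.1)).l
          (dOf (x p.1.1)).g (H85.SA.em (dOf (x p.1.1)).D) *
          (dOf (x p.1.1)).z p.2 * (dOf (x p.1.1)).pi ^ u *
          H85.SA.em (dOf (x p.1.1)).D ^ (2 * t p.1.1 + 1 - u) :=
      PC.sum (F := fun (p : (α × ℕ) × ℕ) u =>
        H98.AL.hm ((dOf (x p.1.1)).b p.1.2 p.2 u) (dOf (x p.1.1)).l
          (dOf (x p.1.1)).g (H85.SA.em (dOf (x p.1.1)).D) *
          (dOf (x p.1.1)).z p.2 * (dOf (x p.1.1)).pi ^ u *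
          H85.SA.em (dOf (x p.1.1)).D ^ (2 * t p.1.1 + 1 - u)) h2
        (hT.comp (Primrec.fst.comp Primrec.fst))
    have h0 : PC fun p : α × ℕ => ∑ i ∈ Finset.range (dOf (x p.1)).s,
        ∑ u ∈ Finset.range (2 * t p.1 + 1),
        H98.AL.hm ((dOf (x p.1)).b p.2 i u) (dOf (x p.1)).l
          (dOf (x p.1)).g (H85.SA.em (dOf (x p.1)).D) *
          (dOf (x p.1)).z i * (dOf (x p.1)).pi ^ u *
          H85.SA.em (dOf (x p.1)).D ^ (2 * t p.1 + 1 - u) :=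
      PC.sum (F := fun (p : α × ℕ) i => ∑ u ∈ Finset.range (2 * t p.1 + 1),
        H98.AL.hm ((dOf (x p.1)).b p.2 i u) (dOf (x p.1)).l
          (dOf (x p.1)).g (H85.SA.em (dOf (x p.1)).D) *
          (dOf (x p.1)).z i * (dOf (x p.1)).pi ^ u *
          H85.SA.em (dOf (x p.1)).D ^ (2 * t p.1 + 1 - u)) h1 (hs.comp Primrec.fst)
    have hphi : PC fun p : α × ℕ => (dOf (x p.1)).phi p.2 := dc_phi hx' Primrec.snd
    have hrho : PC fun p : α × ℕ => (dOf (x p.1)).rho p.2 := dc_rho hx' Primrec.snd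
    exact SR.all (P := fun a k => Eqv (H98.AL.shf (dOf (x a)).c (F a))
      ((dOf (x a)).pi ^ (M a) * (dOf (x a)).phi k *
        H85.SA.em (dOf (x a)).D ^ ((dOf (x a)).l + (2 * t a + 1) - M a))
      ((∑ i ∈ Finset.range (dOf (x a)).s, ∑ u ∈ Finset.range (2 * t a + 1),
        H98.AL.hm ((dOf (x a)).b k i u) (dOf (x a)).l (dOf (x a)).g (H85.SA.em (dOf (x a)).D) *
          (dOf (x a)).z i * (dOf (x a)).pi ^ u *
          H85.SA.em (dOf (x a)).D ^ (2 * t a + 1 - u)) +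
        (dOf (x a)).rho k * (dOf (x a)).pi ^ (2 * t a + 1) *
          H85.SA.em (dOf (x a)).D ^ (dOf (x a)).l))
      (sr_eqv hG' (((hpi'.pow (hM.comp Primrec.fst)).mul hphi).mul
          (hDe'.pow ((Primrec.nat_sub.comp (Primrec.nat_add.comp hl hT) hM).comp Primrec.fst)))
        (h0.add ((hrho.mul (hpi'.pow (hT.comp Primrec.fst))).mul
          (hDe'.pow (hl.comp Primrec.fst))))) hm
  -- (c5)
  have d1 : SR fun a => Eqv (H98.AL.shf (dOf (x a)).c (F a))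
      (∑ k ∈ Finset.range (dOf (x a)).m, MvPolynomial.C ((dOf (x a)).lam k) * (dOf (x a)).phi k)
      (MvPolynomial.C (dOf (x a)).lam0 * H85.SA.em (dOf (x a)).D) :=
    sr_eqv hG (PC.sum (F := fun a k => MvPolynomial.C ((dOf (x a)).lam k) * (dOf (x a)).phi k)
      ((PC.C (dc_lam hx' Primrec.snd)).mul (dc_phi hx' Primrec.snd)) hm)
      ((PC.C hlam0).mul hDe)
  have d2 := hlam0.ne (IC.const 0)
  -- (c6)
  have e1 := hN0.ne (IC.const 0)
  have e2 := hU.sz hZ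
  have e3 := hV.sz hZ
  have e4 := ((hU.mul hq).add (hV.mul hq.derivative)).eq (UC.C hN0)
  have g1 := a1.and ((leZ hc).and (a2.and ((leZ htd).and (a3.and ((le1 he).and ((leZ he).and
    ((le1 hs).and ((leZ hs).and (m1.and (m2.and ((leZ hW).and ((leZ hm).and ((leZ hl).and
    (a4.and (a5.and (a6.and (d2.and (e1.and (e2.and (e3.and e4))))))))))))))))))))
  have g2 := b1.and (b2.and (b3.and (b4.and (b5.and (b6.and (b7.and (b8.and (b9.and (b10.and
    (c1.and (c2.and (d1.and hJ))))))))))))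
  refine ((SR.of_prim g1).and g2).of_iff fun a => ⟨fun h => ?_, fun h => ?_⟩
  · exact ⟨⟨h.Z2, h.cZ, h.lc, h.dZ, h.FZ, h.e1, h.eZ, h.s1, h.sZ, h.MU, h.UW, h.WZ, h.mZ, h.lZ, h.D0,
      h.DZ, h.qZ, h.l0, h.n0, h.UZ, h.VZ, h.eq6⟩, ⟨h.eq1, h.bpi, h.bv, h.bt, h.bg, h.beta,
      h.eq2, h.bz, h.brho, h.ig, h.blb, h.eq4, h.eq5, h.jets⟩⟩
  · obtain ⟨⟨Z2, cZ, lc, dZ, FZ, e1, eZ, s1, sZ, MU, UW, WZ, mZ, lZ, D0, DZ, qZ, l0, n0, UZ, VZ,
      eq6⟩, ⟨eq1, bpi, bv, bt, bg, beta, eq2, bz, brho, ig, blb, eq4, eq5, jets⟩⟩ := h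
    exact ⟨Z2, cZ, lc, dZ, FZ, e1, eZ, s1, sZ, MU, UW, WZ, mZ, lZ, D0, DZ, qZ, eq1, bpi, bv, bt, bg,
      beta, eq2, bz, brho, blb, eq4, ig, l0, eq5, n0, UZ, VZ, eq6, jets⟩

/-- `CerP` for a code of the data -/
theorem sr_cerP {F : α → P2} (hF : PC F) {q : α → Polynomial ℤ} (hq : UC q) {M t Z : α → ℕ}
    (hM : Primrec M) (ht : Primrec t) (hZ : Primrec Z) {x : α → DC} (hx : Primrec x) :
    SR fun a => CerP (F a) (q a) (M a) (t a) (Z a) (dOf (x a)) := by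
  refine sr_cerP0 hF hq hM ht hZ hx ?_
  refine H99.SFA.sr_jetsP (q := q) (d := fun a => dOf (x a)) hq ht (dc_s hx) (dc_m hx) (dc_l hx) ?_
  have i1 : Primrec fun p : α × ℕ × ℕ × ℕ => x p.1 := hx.comp Primrec.fst
  exact dc_b i1 (Primrec.fst.comp Primrec.snd) (Primrec.fst.comp (Primrec.snd.comp Primrec.snd))
    (Primrec.snd.comp (Primrec.snd.comp Primrec.snd))

/-- the existence of a certificate, together with a condition on the number `s` -/
theorem sr_ex_cerP {F : α → P2} (hF : PC F) {q : α → Polynomial ℤ} (hq : UC q) {M t Z : α → ℕ}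
    (hM : Primrec M) (ht : Primrec t) (hZ : Primrec Z) {P : α → ℕ → Prop}
    (hP : SR fun p : α × ℕ => P p.1 p.2) :
    SR fun a => ∃ d : Dt, P a d.s ∧ CerP (F a) (q a) (M a) (t a) (Z a) d := by
  have h1 : SR fun p : α × DC => CerP (F p.1) (q p.1) (M p.1) (t p.1) (Z p.1) (dOf p.2) :=
    sr_cerP (hF.comp Primrec.fst) (hq.comp Primrec.fst) (hM.comp Primrec.fst)
      (ht.comp Primrec.fst) (hZ.comp Primrec.fst) Primrec.snd
  have h2 : SR fun p : α × DC => P p.1 (dOf p.2).s :=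
    hP.comp (Primrec.pair Primrec.fst (dc_s Primrec.snd))
  refine (SR.ex (P := fun (a : α) (x : DC) => P a (dOf x).s ∧
    CerP (F a) (q a) (M a) (t a) (Z a) (dOf x)) (h2.and h1)).of_iff
    fun a => ⟨fun ⟨d, hd, hd'⟩ => ?_, fun ⟨x, hx⟩ => ⟨_, hx⟩⟩
  obtain ⟨x, hx, hx'⟩ := exists_cerP hd'
  exact ⟨x, by rw [hx]; exact hd, hx'⟩

end Pool.Agent.H69.SFA
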