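import Pool.Agent.H69.SFA.Dc

/-!
# [H69 SFA Cerc] THEOREM SF, clause (4), chapter K3: certificates are recursively enumerable

Field by field. `sr_jets` (file H99/SFA/Jts) enters as a hypothesis.
-/

namespace Pool.Agent.H69.SFA

open MvPolynomial Pool.Agent.H8.Siegel Pool.Agent.H69.AL Pool.Agent.H98.AL Pool.Agent.H85.SA

variable {α : Type*} [Primcodable α]

theorem ex_zero_right (n : ℕ) : ex 0 n = Finsupp.single 1 n := by simp [ex]

theorem sr_cer0 {F : α → P2} (hF : PC F) {q : α → Polynomial ℤ} (hq : UC q) {κ Z : α → ℕ}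
    (hκ : Primrec κ) (hZ : Primrec Z) {x : α → DC} (hx : Primrec x)
    (hJ : SR fun a => Jets (q a) (dOf (x a))) :
    SR fun a => Cer (F a) (q a) (κ a) (Z a) (dOf (x a)) := by
  have hc := dc_c hx
  have he := dc_e hx
  have hs := dc_s hx
  have hW := dc_W hx
  have hm := dc_m hx
  have hl := dc_l hx
  have hD := dc_D hx
  have hpi := dc_pi hx
  have hv := dc_v hx
  have hg := dc_g hx
  have heta := dc_eta hx
  have hU := dc_U hx
  have hV := dc_V hx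
  have hlam0 := dc_lam0 hx
  have hN0 := dc_N0 hx
  -- the shifted curve
  have hG : PC fun a => H98.AL.shf (dOf (x a)).c (F a) := hF.shf hc
  have hG' : PC fun p : α × ℕ => H98.AL.shf (dOf (x p.1)).c (F p.1) := hG.comp Primrec.fst
  have hDe : PC fun a => H85.SA.em (dOf (x a)).D := hD.em
  have hDe' : PC fun p : α × ℕ => H85.SA.em (dOf (x p.1)).D := hDe.comp Primrec.fst
  have hpi' : PC fun p : α × ℕ => (dOf (x p.1)).pi := hpi.comp Primrec.fst
  have hg' : PC fun p : α × ℕ => (dOf (x p.1)).g := hg.comp Primrec.fst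
  have hZ' : Primrec fun p : α × ℕ => Z p.1 := hZ.comp Primrec.fst
  have hx' : Primrec fun p : α × ℕ => x p.1 := hx.comp Primrec.fst
  have hW4 : Primrec fun a => 4 * (dOf (x a)).W := Primrec.nat_mul.comp (Primrec.const 4) hW
  have hW2 : Primrec fun a => 2 * (dOf (x a)).W := Primrec.nat_mul.comp (Primrec.const 2) hW
  have htd : Primrec fun a => (H98.AL.shf (dOf (x a)).c (F a)).totalDegree := hG.totalDegree
  have hqd : Primrec fun a => (q a).natDegree := hq.natDegree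
  have leZ : ∀ {f : α → ℕ}, Primrec f → PrimrecPred fun a => f a ≤ Z a := fun hf =>
    PrimrecRel.comp Primrec.nat_le hf hZ
  have le1 : ∀ {f : α → ℕ}, Primrec f → PrimrecPred fun a => 1 ≤ f a := fun hf =>
    PrimrecRel.comp Primrec.nat_le (Primrec.const 1) hf
  -- the fields
  have a1 : PrimrecPred fun a => 2 ≤ Z a := leZ (Primrec.const 2)
  have a2 : PrimrecPred fun a => MvPolynomial.coeff
      (Finsupp.single 1 (H98.AL.shf (dOf (x a)).c (F a)).totalDegree)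
      (H98.AL.shf (dOf (x a)).c (F a)) ≠ 0 := by
    have h := (hG.coeff (Primrec.const 0) htd).ne (IC.const 0)
    simpa only [ex_zero_right] using h
  have a3 := hG.height hZ
  have a4 := hD.ne_zero
  have a5 := hD.sz hZ
  have a6 := hq.sz hZ
  have b1 := sr_eqv hG ((PC.X0.mul (hpi.pow he)).mul hv) (hDe.pow (Primrec.succ.comp he))
  have b2 := sr_bd hG hZ hDe hpi
  have b3 := sr_bd hG hZ hDe hv
  have b4 := sr_bd hG hZ (hDe.pow he) (PC.X0.mul (hpi.pow he))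
  have b5 := sr_bd hG hZ hDe hg
  have b6 := sr_bd hG hZ hDe heta
  have b7 := sr_eqv hG ((hq.hm hqd hg hDe).mul (hDe.pow (Primrec.succ.comp hW4)))
    ((heta.mul (hpi.pow hW4)).mul (hDe.pow hqd))
  have b8 : SR fun a => ∀ i < (dOf (x a)).s, Bd (H98.AL.shf (dOf (x a)).c (F a)) (Z a)
      (H85.SA.em (dOf (x a)).D) ((dOf (x a)).z i) :=
    SR.all (P := fun a i => Bd (H98.AL.shf (dOf (x a)).c (F a)) (Z a)
      (H85.SA.em (dOf (x a)).D) ((dOf (x a)).z i)) (sr_bd hG' hZ' hDe' (dc_z hx' Primrec.snd)) hs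
  have b9 : SR fun a => ∀ k < (dOf (x a)).m, Bd (H98.AL.shf (dOf (x a)).c (F a)) (Z a)
      (H85.SA.em (dOf (x a)).D) ((dOf (x a)).rho k) :=
    SR.all (P := fun a i => Bd (H98.AL.shf (dOf (x a)).c (F a)) (Z a)
      (H85.SA.em (dOf (x a)).D) ((dOf (x a)).rho i)) (sr_bd hG' hZ' hDe' (dc_rho hx' Primrec.snd)) hm
  have b10 : SR fun a => ∀ k < (dOf (x a)).m, Ig (H98.AL.shf (dOf (x a)).c (F a)) (Z a)
      (H85.SA.em (dOf (x a)).D) ((dOf (x a)).phi k) :=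
    SR.all (P := fun a i => Ig (H98.AL.shf (dOf (x a)).c (F a)) (Z a)
      (H85.SA.em (dOf (x a)).D) ((dOf (x a)).phi i)) (sr_ig hG' hZ' hDe' (dc_phi hx' Primrec.snd)) hm
  -- (c4)
  have c1 : SR fun a => ∀ k < (dOf (x a)).m, ∀ i < (dOf (x a)).s, ∀ u < 4 * (dOf (x a)).W,
      ((dOf (x a)).b k i u).natDegree ≤ (dOf (x a)).l ∧ Sz (Z a) ((dOf (x a)).b k i u) := by
    have h3 : UC fun p : ((α × ℕ) × ℕ) × ℕ => (dOf (x p.1.1.1)).b p.1.1.2 p.1.2 p.2 :=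
      dc_b (hx.comp (Primrec.fst.comp (Primrec.fst.comp Primrec.fst)))
        (Primrec.snd.comp (Primrec.fst.comp Primrec.fst)) (Primrec.snd.comp Primrec.fst) Primrec.snd
    have i3 : Primrec fun p : ((α × ℕ) × ℕ) × ℕ => p.1.1.1 :=
      Primrec.fst.comp (Primrec.fst.comp Primrec.fst)
    have h2 : SR fun p : ((α × ℕ) × ℕ) × ℕ =>
        ((dOf (x p.1.1.1)).b p.1.1.2 p.1.2 p.2).natDegree ≤ (dOf (x p.1.1.1)).l ∧
          Sz (Z p.1.1.1) ((dOf (x p.1.1.1)).b p.1.1.2 p.1.2 p.2) :=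
      SR.of_prim ((PrimrecRel.comp Primrec.nat_le h3.natDegree (hl.comp i3)).and
        (h3.sz (hZ.comp i3)))
    have h1 : SR fun p : (α × ℕ) × ℕ => ∀ u < 4 * (dOf (x p.1.1)).W,
        ((dOf (x p.1.1)).b p.1.2 p.2 u).natDegree ≤ (dOf (x p.1.1)).l ∧
          Sz (Z p.1.1) ((dOf (x p.1.1)).b p.1.2 p.2 u) :=
      SR.all (P := fun (p : (α × ℕ) × ℕ) u =>
        ((dOf (x p.1.1)).b p.1.2 p.2 u).natDegree ≤ (dOf (x p.1.1)).l ∧
          Sz (Z p.1.1) ((dOf (x p.1.1)).b p.1.2 p.2 u)) h2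
        (hW4.comp (Primrec.fst.comp Primrec.fst))
    have h0 : SR fun p : α × ℕ => ∀ i < (dOf (x p.1)).s, ∀ u < 4 * (dOf (x p.1)).W,
        ((dOf (x p.1)).b p.2 i u).natDegree ≤ (dOf (x p.1)).l ∧
          Sz (Z p.1) ((dOf (x p.1)).b p.2 i u) :=
      SR.all (P := fun (p : α × ℕ) i => ∀ u < 4 * (dOf (x p.1)).W,
        ((dOf (x p.1)).b p.2 i u).natDegree ≤ (dOf (x p.1)).l ∧
          Sz (Z p.1) ((dOf (x p.1)).b p.2 i u)) h1 (hs.comp Primrec.fst)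
    exact SR.all (P := fun a k => ∀ i < (dOf (x a)).s, ∀ u < 4 * (dOf (x a)).W,
      ((dOf (x a)).b k i u).natDegree ≤ (dOf (x a)).l ∧ Sz (Z a) ((dOf (x a)).b k i u)) h0 hm
  have c2 : SR fun a => ∀ k < (dOf (x a)).m, Eqv (H98.AL.shf (dOf (x a)).c (F a))
      ((dOf (x a)).pi ^ (2 * (dOf (x a)).W) * (dOf (x a)).phi k *
        H85.SA.em (dOf (x a)).D ^ ((dOf (x a)).l + 2 * (dOf (x a)).W))
      ((∑ i ∈ Finset.range (dOf (x a)).s, ∑ u ∈ Finset.range (4 * (dOf (x a)).W),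
        H98.AL.hm ((dOf (x a)).b k i u) (dOf (x a)).l (dOf (x a)).g (H85.SA.em (dOf (x a)).D) *
          (dOf (x a)).z i * (dOf (x a)).pi ^ u *
          H85.SA.em (dOf (x a)).D ^ (4 * (dOf (x a)).W - u)) +
        (dOf (x a)).rho k * (dOf (x a)).pi ^ (4 * (dOf (x a)).W) *
          H85.SA.em (dOf (x a)).D ^ (dOf (x a)).l) := by
    have i3 : Primrec fun p : ((α × ℕ) × ℕ) × ℕ => p.1.1.1 :=
      Primrec.fst.comp (Primrec.fst.comp Primrec.fst)
    have h3 : UC fun p : ((α × ℕ) × ℕ) × ℕ => (dOf (x p.1.1.1)).b p.1.1.2 p.1.2 p.2 :=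
      dc_b (hx.comp i3) (Primrec.snd.comp (Primrec.fst.comp Primrec.fst))
        (Primrec.snd.comp Primrec.fst) Primrec.snd
    have h2 : PC fun p : ((α × ℕ) × ℕ) × ℕ =>
        H98.AL.hm ((dOf (x p.1.1.1)).b p.1.1.2 p.1.2 p.2) (dOf (x p.1.1.1)).l
          (dOf (x p.1.1.1)).g (H85.SA.em (dOf (x p.1.1.1)).D) *
          (dOf (x p.1.1.1)).z p.1.2 * (dOf (x p.1.1.1)).pi ^ p.2 *
          H85.SA.em (dOf (x p.1.1.1)).D ^ (4 * (dOf (x p.1.1.1)).W - p.2) :=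
      (((h3.hm (hl.comp i3) (hg.comp i3) (hDe.comp i3)).mul
        (dc_z (hx.comp i3) (Primrec.snd.comp Primrec.fst))).mul
        ((hpi.comp i3).pow Primrec.snd)).mul
        ((hDe.comp i3).pow (Primrec.nat_sub.comp (hW4.comp i3) Primrec.snd))
    have h1 : PC fun p : (α × ℕ) × ℕ => ∑ u ∈ Finset.range (4 * (dOf (x p.1.1)).W),
        H98.AL.hm ((dOf (x p.1.1)).b p.1.2 p.2 u) (dOf (x p.1.1)).l
          (dOf (x p.1.1)).g (H85.SA.em (dOf (x p.1.1)).D) *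
          (dOf (x p.1.1)).z p.2 * (dOf (x p.1.1)).pi ^ u *
          H85.SA.em (dOf (x p.1.1)).D ^ (4 * (dOf (x p.1.1)).W - u) :=
      PC.sum (F := fun (p : (α × ℕ) × ℕ) u =>
        H98.AL.hm ((dOf (x p.1.1)).b p.1.2 p.2 u) (dOf (x p.1.1)).l
          (dOf (x p.1.1)).g (H85.SA.em (dOf (x p.1.1)).D) *
          (dOf (x p.1.1)).z p.2 * (dOf (x p.1.1)).pi ^ u *
          H85.SA.em (dOf (x p.1.1)).D ^ (4 * (dOf (x p.1.1)).W - u)) h2
        (hW4.comp (Primrec.fst.comp Primrec.fst))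
    have h0 : PC fun p : α × ℕ => ∑ i ∈ Finset.range (dOf (x p.1)).s,
        ∑ u ∈ Finset.range (4 * (dOf (x p.1)).W),
        H98.AL.hm ((dOf (x p.1)).b p.2 i u) (dOf (x p.1)).l
          (dOf (x p.1)).g (H85.SA.em (dOf (x p.1)).D) *
          (dOf (x p.1)).z i * (dOf (x p.1)).pi ^ u *
          H85.SA.em (dOf (x p.1)).D ^ (4 * (dOf (x p.1)).W - u) :=
      PC.sum (F := fun (p : α × ℕ) i => ∑ u ∈ Finset.range (4 * (dOf (x p.1)).W),
        H98.AL.hm ((dOf (x p.1)).b p.2 i u) (dOf (x p.1)).l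
          (dOf (x p.1)).g (H85.SA.em (dOf (x p.1)).D) *
          (dOf (x p.1)).z i * (dOf (x p.1)).pi ^ u *
          H85.SA.em (dOf (x p.1)).D ^ (4 * (dOf (x p.1)).W - u)) h1 (hs.comp Primrec.fst)
    have hphi : PC fun p : α × ℕ => (dOf (x p.1)).phi p.2 := dc_phi hx' Primrec.snd
    have hrho : PC fun p : α × ℕ => (dOf (x p.1)).rho p.2 := dc_rho hx' Primrec.snd
    exact SR.all (P := fun a k => Eqv (H98.AL.shf (dOf (x a)).c (F a))
      ((dOf (x a)).pi ^ (2 * (dOf (x a)).W) * (dOf (x a)).phi k *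
        H85.SA.em (dOf (x a)).D ^ ((dOf (x a)).l + 2 * (dOf (x a)).W))
      ((∑ i ∈ Finset.range (dOf (x a)).s, ∑ u ∈ Finset.range (4 * (dOf (x a)).W),
        H98.AL.hm ((dOf (x a)).b k i u) (dOf (x a)).l (dOf (x a)).g (H85.SA.em (dOf (x a)).D) *
          (dOf (x a)).z i * (dOf (x a)).pi ^ u *
          H85.SA.em (dOf (x a)).D ^ (4 * (dOf (x a)).W - u)) +
        (dOf (x a)).rho k * (dOf (x a)).pi ^ (4 * (dOf (x a)).W) *
          H85.SA.em (dOf (x a)).D ^ (dOf (x a)).l))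
      (sr_eqv hG' (((hpi'.pow (hW2.comp Primrec.fst)).mul hphi).mul
          (hDe'.pow ((Primrec.nat_add.comp hl hW2).comp Primrec.fst)))
        (h0.add ((hrho.mul (hpi'.pow (hW4.comp Primrec.fst))).mul
          (hDe'.pow (hl.comp Primrec.fst))))) hm
  -- (c5)
  have d1 : SR fun a => Eqv (H98.AL.shf (dOf (x a)).c (F a))
      (∑ k ∈ Finset.range (dOf (x a)).m, MvPolynomial.C ((dOf (x a)).lam k) * (dOf (x a)).phi k)
      (MvPolynomial.C (dOf (x a)).lam0 * H85.SA.em (dOf (x a)).D) :=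
    sr_eqv hG (PC.sum (F := fun a k => MvPolynomial.C ((dOf (x a)).lam k) * (dOf (x a)).phi k)
      ((PC.C (dc_lam hx' Primrec.snd)).mul (dc_phi hx' Primrec.snd)) hm)
      ((PC.C hlam0).mul hDe)
  have d2 := hlam0.ne (IC.const 0)
  -- (c6)
  have e1 := hN0.ne (IC.const 0)
  have e2 := hU.sz hZ
  have e3 := hV.sz hZ
  have e4 := ((hU.mul hq).add (hV.mul hq.derivative)).eq (UC.C hN0)
  -- (c8)
  have f1 : PrimrecPred fun a => (88 * (dOf (x a)).W + 46) * (dOf (x a)).s * (q a).natDegree ≤ κ a :=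
    PrimrecRel.comp Primrec.nat_le (Primrec.nat_mul.comp (Primrec.nat_mul.comp
      (Primrec.nat_add.comp (Primrec.nat_mul.comp (Primrec.const 88) hW) (Primrec.const 46)) hs)
      hqd) hκ
  have g1 := a1.and ((leZ hc).and (a2.and ((leZ htd).and (a3.and ((le1 he).and ((leZ he).and
    ((le1 hs).and ((leZ hs).and ((le1 hW).and ((leZ hW).and ((leZ hm).and ((leZ hl).and
    (a4.and (a5.and (a6.and (d2.and (e1.and (e2.and (e3.and (e4.and f1))))))))))))))))))))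
  have g2 := b1.and (b2.and (b3.and (b4.and (b5.and (b6.and (b7.and (b8.and (b9.and (b10.and
    (c1.and (c2.and (d1.and hJ))))))))))))
  refine ((SR.of_prim g1).and g2).of_iff fun a => ⟨fun h => ?_, fun h => ?_⟩
  · exact ⟨⟨h.Z2, h.cZ, h.lc, h.dZ, h.FZ, h.e1, h.eZ, h.s1, h.sZ, h.W1, h.WZ, h.mZ, h.lZ, h.D0,
      h.DZ, h.qZ, h.l0, h.n0, h.UZ, h.VZ, h.eq6, h.num⟩, ⟨h.eq1, h.bpi, h.bv, h.bt, h.bg, h.beta,
      h.eq2, h.bz, h.brho, h.ig, h.blb, h.eq4, h.eq5, h.jets⟩⟩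
  · obtain ⟨⟨Z2, cZ, lc, dZ, FZ, e1, eZ, s1, sZ, W1, WZ, mZ, lZ, D0, DZ, qZ, l0, n0, UZ, VZ, eq6,
      num⟩, ⟨eq1, bpi, bv, bt, bg, beta, eq2, bz, brho, ig, blb, eq4, eq5, jets⟩⟩ := h
    exact ⟨Z2, cZ, lc, dZ, FZ, e1, eZ, s1, sZ, W1, WZ, mZ, lZ, D0, DZ, qZ, eq1, bpi, bv, bt, bg,
      beta, eq2, bz, brho, blb, eq4, ig, l0, eq5, n0, UZ, VZ, eq6, jets, num⟩

end Pool.Agent.H69.SFA
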