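import Pool.Agent.H69.SFA.Spc
import Pool.Agent.H85.SA.Root
import Pool.Agent.H98.SFA.Dov

/-!
# [H69 SFA Cr0] THEOREM SF, clause (4), chapter K3: type 0 (no real point at infinity)

`Lw p Z N`: `|p(x)| ≥ TT Z / N + 1 / Z` at all points `x = j/N`, `|x| ≤ 2 Z + 2`; so `1 ≤ Z |p(r)|` for all real `r`.
`P00 F Z`: a certificate of type 0 with this condition; it is recursively enumerable.
-/

namespace Pool.Agent.H69.SFA

open Pool.Agent.H8.Siegel Pool.Agent.H69.AL Pool.Agent.H98.AL Pool.Agent.H85.SA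

/-- `N^r p(a/N)`, `r` the degree -/
noncomputable def evN (p : Polynomial ℤ) (a : ℤ) (N : ℕ) : ℤ :=
  ∑ i ∈ Finset.range (p.natDegree + 1), p.coeff i * a ^ i * (N : ℤ) ^ (p.natDegree - i)

theorem evN_cast (q : Polynomial ℤ) (a : ℤ) {N : ℕ} (hN : 1 ≤ N) :
    ((evN q a N : ℤ) : ℝ) = (N : ℝ) ^ q.natDegree * Polynomial.aeval ((a : ℝ) / N) q := by
  have hN0 : (N : ℝ) ≠ 0 := by
    have : (0 : ℝ) < N := by exact_mod_cast hN
    exact ne_of_gt this
  rw [evN, Polynomial.aeval_eq_sum_range, Finset.mul_sum, Int.cast_sum]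
  refine Finset.sum_congr rfl fun i hi => ?_
  have hi' : i ≤ q.natDegree := by
    have := Finset.mem_range.mp hi
    omega
  have e : (N : ℝ) ^ q.natDegree = N ^ (q.natDegree - i) * N ^ i := by
    rw [← pow_add, Nat.sub_add_cancel hi']
  rw [e, zsmul_eq_mul, div_pow]
  push_cast
  field_simp

/-- a lower bound for `|p|` on the reals, checked on a grid -/
def Lw (p : Polynomial ℤ) (Z N : ℕ) : Prop :=
  2 ≤ Z ∧ Sz Z p ∧ p ≠ 0 ∧ 1 ≤ N ∧ ∀ j < 2 * ((2 * Z + 2) * N) + 1,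
    ((TT Z * Z + N : ℕ) : ℤ) * (N : ℤ) ^ p.natDegree ≤
      ((Z * N : ℕ) : ℤ) * |evN p ((j : ℤ) - (((2 * Z + 2) * N : ℕ) : ℤ)) N|

theorem lw_iff (p : Polynomial ℤ) (a : ℤ) {Z N : ℕ} (hN : 1 ≤ N) :
    ((TT Z * Z + N : ℕ) : ℤ) * (N : ℤ) ^ p.natDegree ≤ ((Z * N : ℕ) : ℤ) * |evN p a N| ↔
      (TT Z * Z + N : ℝ) ≤ Z * N * |Polynomial.aeval ((a : ℝ) / N) p| := by
  have hN0 : (0 : ℝ) < N := by exact_mod_cast hN
  have hNr : (0 : ℝ) < (N : ℝ) ^ p.natDegree := pow_pos hN0 _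
  rw [← Int.cast_le (R := ℝ)]
  rw [Int.cast_mul, Int.cast_mul, Int.cast_abs, evN_cast p a hN, abs_mul, abs_of_pos hNr]
  push_cast
  rw [show (Z : ℝ) * N * ((N : ℝ) ^ p.natDegree * |Polynomial.aeval ((a : ℝ) / N) p|) =
    (Z * N * |Polynomial.aeval ((a : ℝ) / N) p|) * (N : ℝ) ^ p.natDegree from by ring]
  exact mul_le_mul_iff_left₀ hNr

theorem lw_sound {p : Polynomial ℤ} {Z N : ℕ} (h : Lw p Z N) (r : ℝ) :
    1 ≤ (Z : ℝ) * |Polynomial.aeval r p| := by
  obtain ⟨hZ, hS, hp, hN, hg⟩ := h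
  have hZ2 : (2 : ℝ) ≤ Z := by exact_mod_cast hZ
  have hN1 : (1 : ℝ) ≤ N := by exact_mod_cast hN
  have hN0 : (0 : ℝ) < N := by linarith
  rcases le_or_gt |r| (2 * Z + 1) with hr | hr
  · obtain ⟨hl, hu⟩ := abs_le.1 hr
    obtain ⟨a, ha⟩ : ∃ a : ℤ, a = ⌊r * N⌋ := ⟨_, rfl⟩
    have h1 : (a : ℝ) ≤ r * N := by rw [ha]; exact Int.floor_le _
    have h2 : r * N < a + 1 := by rw [ha]; exact Int.lt_floor_add_one _
    have ha1 : (a : ℝ) ≤ (2 * Z + 1) * N := h1.trans (mul_le_mul_of_nonneg_right hu hN0.le)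
    have ha2 : -((2 * Z + 2 : ℝ) * N) ≤ a := by
      have h3 : -((2 * Z + 1 : ℝ)) * N ≤ r * N := mul_le_mul_of_nonneg_right (by linarith) hN0.le
      nlinarith
    have ha1' : a ≤ (2 * Z + 2) * N := by
      have : (a : ℝ) ≤ (2 * Z + 2) * N := by nlinarith
      exact_mod_cast this
    have ha2' : -((2 * (Z : ℤ) + 2) * N) ≤ a := by exact_mod_cast ha2
    obtain ⟨j, hj⟩ : ∃ j : ℕ, (j : ℤ) = a + (2 * Z + 2) * N :=
      ⟨(a + (2 * Z + 2) * N).toNat, Int.toNat_of_nonneg (by linarith)⟩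
    have hj' : j < 2 * ((2 * Z + 2) * N) + 1 := by
      have : (j : ℤ) < 2 * ((2 * Z + 2) * N) + 1 := by
        rw [hj]
        linarith
      exact_mod_cast this
    have hja : (j : ℤ) - (((2 * Z + 2) * N : ℕ) : ℤ) = a := by
      rw [hj]
      push_cast
      ring
    have h3 := hg j hj'
    rw [hja, lw_iff p a hN] at h3
    have hd : |r - (a : ℝ) / N| ≤ 1 / N := by
      have e : r - (a : ℝ) / N = (r * N - a) / N := by
        field_simp
      rw [e, abs_div, abs_of_pos hN0]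
      refine div_le_div_of_nonneg_right ?_ hN0.le
      rw [abs_le]
      constructor <;> linarith
    have hx : |(a : ℝ) / N| ≤ 2 * Z + 2 := by
      have h5 : |(a : ℝ) / N| ≤ |(a : ℝ) / N - r| + |r| := by
        have := abs_add_le ((a : ℝ) / N - r) r
        simpa using this
      have h6 : (1 : ℝ) / N ≤ 1 := by
        rw [div_le_one hN0]
        exact hN1
      rw [abs_sub_comm] at h5
      linarith
    have h7 := val_lip hZ hS (x := r) (y := (a : ℝ) / N) (by linarith) hx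
    have h8 : |Polynomial.aeval ((a : ℝ) / N) p| ≤ |Polynomial.aeval r p| + TT Z * (1 / N) := by
      have h9 : |Polynomial.aeval ((a : ℝ) / N) p| ≤
          |Polynomial.aeval ((a : ℝ) / N) p - Polynomial.aeval r p| + |Polynomial.aeval r p| := by
        have := abs_add_le (Polynomial.aeval ((a : ℝ) / N) p - Polynomial.aeval r p)
          (Polynomial.aeval r p)
        simpa using this
      rw [abs_sub_comm] at h9
      have h10 : (TT Z : ℝ) * |r - (a : ℝ) / N| ≤ TT Z * (1 / N) :=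
        mul_le_mul_of_nonneg_left hd (Nat.cast_nonneg _)
      linarith
    have h11 : (Z : ℝ) * N * |Polynomial.aeval ((a : ℝ) / N) p| ≤
        Z * N * (|Polynomial.aeval r p| + TT Z * (1 / N)) :=
      mul_le_mul_of_nonneg_left h8 (by positivity)
    have h12 : (Z : ℝ) * N * (|Polynomial.aeval r p| + TT Z * (1 / N)) =
        Z * N * |Polynomial.aeval r p| + TT Z * Z := by
      field_simp
    rw [h12] at h11
    have h13 : (N : ℝ) * 1 ≤ N * (Z * |Polynomial.aeval r p|) := by linarith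
    exact le_of_mul_le_mul_left h13 hN0
  · have h1 : (1 : ℝ) ≤ |r| := by linarith
    have h2 := sz_lo hS hp (x := r) (by linarith) h1
    have h3 : (1 : ℝ) ≤ |r| ^ p.natDegree := one_le_pow₀ h1
    have h4 : (1 : ℝ) ≤ 2 * |Polynomial.aeval r p| := h3.trans h2
    exact h4.trans (mul_le_mul_of_nonneg_right hZ2 (abs_nonneg _))

theorem lw_ex {p : Polynomial ℤ} {Z : ℕ} (hS : Sz Z p)
    (h : ∀ r : ℝ, 1 ≤ (Z : ℝ) * |Polynomial.aeval r p|) : ∃ N, Lw p (2 * Z) N := by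
  have hZ1 : 1 ≤ Z := by
    by_contra h0
    have h1 : Z = 0 := by omega
    have h2 := h 0
    rw [h1] at h2
    norm_num at h2
  have hp : p ≠ 0 := by
    rintro rfl
    have h2 := h 0
    rw [map_zero, abs_zero, mul_zero] at h2
    norm_num at h2
  have hT : 1 ≤ TT (2 * Z) := Nat.one_le_pow _ _ (by omega)
  obtain ⟨N, hNd⟩ : ∃ N, N = TT (2 * Z) * (2 * Z) := ⟨_, rfl⟩
  have hN : 1 ≤ N := by
    rw [hNd]
    exact Nat.one_le_iff_ne_zero.2 (by positivity)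
  refine ⟨N, by omega, H98.SFA.sz_mono (by omega) hS, hp, hN, fun j _ => ?_⟩
  rw [lw_iff p _ hN]
  have hN0 : (0 : ℝ) < N := by exact_mod_cast hN
  have h1 := h ((((j : ℤ) - (((2 * (2 * Z) + 2) * N : ℕ) : ℤ) : ℤ) : ℝ) / N)
  have h2 := mul_le_mul_of_nonneg_left h1 (by positivity : (0 : ℝ) ≤ 2 * N)
  have h3 : ((TT (2 * Z) : ℕ) : ℝ) * ((2 * Z : ℕ) : ℝ) = N := by
    rw [hNd]
    push_cast
    ring
  rw [h3]
  push_cast at h2 ⊢
  linarith

/-- the conditions of a certificate of type 0 -/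
def OkR (F : P2) (Z c s e m n : ℕ) (p : Polynomial ℤ) (N Q R : P2) : Prop :=
  p.natDegree ≤ e ∧ 1 ≤ m ∧
    MvPolynomial.coeff (Finsupp.single 1 (shf c F).totalDegree) (shf c F) ≠ 0 ∧
    hm p e N (MvPolynomial.C (m : ℤ) * MvPolynomial.X 0 ^ s : P2) = shf c F * Q + R ∧
    R.totalDegree < s * e ∧ Lw p Z n ∧ c ≤ Z ∧ s ≤ Z ∧ e ≤ Z ∧ m ≤ Z ∧
    (shf c F).totalDegree ≤ Z ∧ (∀ t, |MvPolynomial.coeff t (shf c F)| ≤ (Z : ℤ)) ∧
    R.totalDegree ≤ Z ∧ ∀ t, |MvPolynomial.coeff t R| ≤ (Z : ℤ)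

/-- a certificate of type 0 with a check of the lower bound -/
def P00 (F : P2) (Z : ℕ) : Prop :=
  ∃ x : List ℕ × List Code, OkR F Z (x.1.getD 0 0) (x.1.getD 1 0) (x.1.getD 2 0) (x.1.getD 3 0)
    (x.1.getD 4 0) (uni (nth x.2 0)) (toPoly (nth x.2 1)) (toPoly (nth x.2 2))
    (toPoly (nth x.2 3))

theorem p00_sound {F : P2} {Z : ℕ} (h : P00 F Z) : Cer0 F Z := by
  obtain ⟨x, h1, h2, h3, h4, h5, h6, h7, h8, h9, h10, h11, h12, h13, h14⟩ := h
  have hl := lw_sound h6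
  refine ⟨uni (nth x.2 0), x.1.getD 0 0, x.1.getD 1 0, x.1.getD 2 0, x.1.getD 3 0,
    toPoly (nth x.2 1), toPoly (nth x.2 2), toPoly (nth x.2 3), ⟨fun r hr => ?_, ?_, h2, h3, ?_, h5⟩,
    hl, h7, h8, h9, h10, h6.2.1, h11, h12, h13, h14⟩
  · have := hl r
    rw [hr, abs_zero, mul_zero] at this
    norm_num at this
  · rw [one_mul]
    exact h1
  · rw [one_mul]
    exact h4

theorem p00_ex {F : P2} (h : ∃ Z, Cer0 F Z) : ∃ Z, P00 F Z := by
  obtain ⟨Z, p, c, s, e, m, N, Q, R, hC, hl, h7, h8, h9, h10, hS, h11, h12, h13, h14⟩ := h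
  obtain ⟨n, hn⟩ := lw_ex hS hl
  obtain ⟨p', rfl⟩ := exists_uni p
  obtain ⟨N', rfl⟩ := exists_code N
  obtain ⟨Q', rfl⟩ := exists_code Q
  obtain ⟨R', rfl⟩ := exists_code R
  have hle : Z ≤ 2 * Z := by omega
  have hle' : (Z : ℤ) ≤ ((2 * Z : ℕ) : ℤ) := by exact_mod_cast hle
  refine ⟨2 * Z, ([c, s, e, m, n], [p', N', Q', R']), ?_⟩
  show OkR F (2 * Z) c s e m n (uni p') (toPoly N') (toPoly Q') (toPoly R')
  have h1 := hC.de
  have h4 := hC.eq
  rw [one_mul] at h1 h4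
  exact ⟨h1, hC.m1, hC.lc, h4, hC.tr, hn, h7.trans hle, h8.trans hle, h9.trans hle, h10.trans hle,
    h11.trans hle, fun t => (h12 t).trans hle', h13.trans hle, fun t => (h14 t).trans hle'⟩

section

variable {α : Type*} [Primcodable α]

theorem primrec_tt {Z : α → ℕ} (hZ : Primrec Z) : Primrec fun a => TT (Z a) := by
  unfold TT
  exact primrec_pwr (Primrec.nat_add.comp (Primrec.nat_mul.comp (Primrec.const 2) hZ)
    (Primrec.const 2)) (Primrec.nat_add.comp hZ (Primrec.const 3))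

theorem ic_evN {p : α → Polynomial ℤ} (hp : UC p) {a : α → ℤ} (ha : IC a) {N : α → ℕ}
    (hN : Primrec N) : IC fun x => evN (p x) (a x) (N x) := by
  have i1 : Primrec fun q : α × ℕ => q.1 := Primrec.fst
  exact IC.sum (F := fun (x : α) i => (p x).coeff i * a x ^ i * (N x : ℤ) ^ ((p x).natDegree - i))
    ((((hp.comp i1).coeff Primrec.snd).mul ((ha.comp i1).pow Primrec.snd)).mul
      ((IC.nat (hN.comp i1)).pow (Primrec.nat_sub.comp (hp.natDegree.comp i1) Primrec.snd)))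
    (Primrec.succ.comp hp.natDegree)

theorem primrec_lw {p : α → Polynomial ℤ} (hp : UC p) {Z N : α → ℕ} (hZ : Primrec Z)
    (hN : Primrec N) : PrimrecPred fun a => Lw (p a) (Z a) (N a) := by
  unfold Lw
  have hM : Primrec fun a => (2 * Z a + 2) * N a := Primrec.nat_mul.comp (Primrec.nat_add.comp
    (Primrec.nat_mul.comp (Primrec.const 2) hZ) (Primrec.const 2)) hN
  have h1 : PrimrecPred fun a => 2 ≤ Z a := PrimrecRel.comp Primrec.nat_le (Primrec.const 2) hZ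
  have h4 : PrimrecPred fun a => 1 ≤ N a := PrimrecRel.comp Primrec.nat_le (Primrec.const 1) hN
  have i1 : Primrec fun q : α × ℕ => q.1 := Primrec.fst
  have e1 : IC fun q : α × ℕ => ((TT (Z q.1) * Z q.1 + N q.1 : ℕ) : ℤ) *
      (N q.1 : ℤ) ^ (p q.1).natDegree :=
    (IC.nat ((Primrec.nat_add.comp (Primrec.nat_mul.comp (primrec_tt hZ) hZ) hN).comp i1)).mul
      ((IC.nat (hN.comp i1)).pow (hp.natDegree.comp i1))
  have e2 : IC fun q : α × ℕ => ((Z q.1 * N q.1 : ℕ) : ℤ) *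
      |evN (p q.1) ((q.2 : ℤ) - (((2 * Z q.1 + 2) * N q.1 : ℕ) : ℤ)) (N q.1)| :=
    (IC.nat ((Primrec.nat_mul.comp hZ hN).comp i1)).mul (ic_evN (hp.comp i1)
      ((IC.nat Primrec.snd).sub (IC.nat (hM.comp i1))) (hN.comp i1)).abs
  have h5 := primrec_all (R := fun (a : α) (j : ℕ) => ((TT (Z a) * Z a + N a : ℕ) : ℤ) *
      (N a : ℤ) ^ (p a).natDegree ≤ ((Z a * N a : ℕ) : ℤ) *
      |evN (p a) ((j : ℤ) - (((2 * Z a + 2) * N a : ℕ) : ℤ)) (N a)|)
    (n := fun a => 2 * ((2 * Z a + 2) * N a) + 1) (e1.le e2)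
    (Primrec.succ.comp (Primrec.nat_mul.comp (Primrec.const 2) hM))
  exact h1.and ((hp.sz hZ).and (hp.ne_zero.and (h4.and h5)))

theorem primrec_okR {F N Q R : α → P2} (hF : PC F) {Z c s e m n : α → ℕ} (hZ : Primrec Z)
    (hc : Primrec c) (hs : Primrec s) (he : Primrec e) (hm : Primrec m) (hn : Primrec n)
    {p : α → Polynomial ℤ} (hp : UC p) (hN : PC N) (hQ : PC Q) (hR : PC R) :
    PrimrecPred fun a => OkR (F a) (Z a) (c a) (s a) (e a) (m a) (n a) (p a) (N a) (Q a) (R a) := by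
  unfold OkR
  have hG := hF.shf hc
  have leZ : ∀ {f : α → ℕ}, Primrec f → PrimrecPred fun a => f a ≤ Z a := fun hf =>
    PrimrecRel.comp Primrec.nat_le hf hZ
  have a1 : PrimrecPred fun a => (p a).natDegree ≤ e a := PrimrecRel.comp Primrec.nat_le hp.natDegree he
  have a2 : PrimrecPred fun a => 1 ≤ m a := PrimrecRel.comp Primrec.nat_le (Primrec.const 1) hm
  have a3 : PrimrecPred fun a => MvPolynomial.coeff
      (Finsupp.single 1 (H98.AL.shf (c a) (F a)).totalDegree) (H98.AL.shf (c a) (F a)) ≠ 0 := by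
    have h := (hG.coeff (Primrec.const 0) hG.totalDegree).ne (IC.const 0)
    have h2 : ∀ n, ex 0 n = Finsupp.single 1 n := fun n => by simp [ex]
    simpa only [h2] using h
  have a4 : PrimrecPred fun a => H98.AL.hm (p a) (e a) (N a)
      (MvPolynomial.C (m a : ℤ) * MvPolynomial.X 0 ^ s a : P2) =
      H98.AL.shf (c a) (F a) * Q a + R a :=
    (hp.hm he hN ((PC.C (IC.nat hm)).mul (PC.X0.pow hs))).eq ((hG.mul hQ).add hR)
  have a5 : PrimrecPred fun a => (R a).totalDegree < s a * e a :=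
    PrimrecRel.comp Primrec.nat_lt hR.totalDegree (Primrec.nat_mul.comp hs he)
  have a6 := primrec_lw hp hZ hn
  exact a1.and (a2.and (a3.and (a4.and (a5.and (a6.and ((leZ hc).and ((leZ hs).and ((leZ he).and
    ((leZ hm).and ((leZ hG.totalDegree).and ((hG.height hZ).and ((leZ hR.totalDegree).and
    (hR.height hZ)))))))))))))

theorem sr_p00 {F : α → P2} (hF : PC F) {Z : α → ℕ} (hZ : Primrec Z) :
    SR fun a => P00 (F a) (Z a) := by
  have h1 : ∀ j, Primrec fun q : α × (List ℕ × List Code) => q.2.1.getD j 0 := fun j =>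
    (Primrec.list_getD (0 : ℕ)).comp (Primrec.fst.comp Primrec.snd) (Primrec.const j)
  have h2 : ∀ j, Primrec fun q : α × (List ℕ × List Code) => nth q.2.2 j := fun j =>
    primrec_nth.comp (Primrec.snd.comp Primrec.snd) (Primrec.const j)
  exact SR.ex (P := fun (a : α) (x : List ℕ × List Code) => OkR (F a) (Z a) (x.1.getD 0 0)
    (x.1.getD 1 0) (x.1.getD 2 0) (x.1.getD 3 0) (x.1.getD 4 0) (uni (nth x.2 0))
    (toPoly (nth x.2 1)) (toPoly (nth x.2 2)) (toPoly (nth x.2 3)))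
    (SR.of_prim (primrec_okR (hF.comp Primrec.fst) (hZ.comp Primrec.fst) (h1 0) (h1 1) (h1 2)
      (h1 3) (h1 4) (UC.code (h2 0)) (PC.code (h2 1)) (PC.code (h2 2)) (PC.code (h2 3))))

end

end Pool.Agent.H69.SFA
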