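import Pool.Agent.H69.SFA.Eqb

/-!
# [H69 SFA Dc] THEOREM SF, clause (4), chapter K3: codes of the data of a certificate
-/

namespace Pool.Agent.H69.SFA

open MvPolynomial Pool.Agent.H8.Siegel Pool.Agent.H69.AL Pool.Agent.H98.AL Pool.Agent.H85.SA

/-- codes of the data: `[c, e, s, W, m, l, lam0, lam0', N0, N0']`, `[D, pi, v, g, eta, U, V]`, `[z, phi, rho]`, `b`,
`lam` -/
abbrev DC : Type := List ℕ × List Code × List (List Code) × List (List (List Code)) × List (ℕ × ℕ)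

/-- the data of a code -/
noncomputable def dOf (x : DC) : Dt where
  c := x.1.getD 0 0
  e := x.1.getD 1 0
  s := x.1.getD 2 0
  W := x.1.getD 3 0
  m := x.1.getD 4 0
  l := x.1.getD 5 0
  D := uni (nth x.2.1 0)
  pi := toPoly (nth x.2.1 1)
  v := toPoly (nth x.2.1 2)
  g := toPoly (nth x.2.1 3)
  eta := toPoly (nth x.2.1 4)
  z := fun i => toPoly (nth2 x.2.2.1 0 i)
  phi := fun i => toPoly (nth2 x.2.2.1 1 i)
  rho := fun i => toPoly (nth2 x.2.2.1 2 i)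
  b := fun k i u => uni (nth3 x.2.2.2.1 k i u)
  lam := fun k => iv (x.2.2.2.2.getD k (0, 0))
  lam0 := iv (x.1.getD 6 0, x.1.getD 7 0)
  U := uni (nth x.2.1 5)
  V := uni (nth x.2.1 6)
  N0 := iv (x.1.getD 8 0, x.1.getD 9 0)

section

variable {α : Type*} [Primcodable α] {x : α → DC} (hx : Primrec x)

include hx

theorem dc_nat (j : ℕ) : Primrec fun a => (x a).1.getD j 0 :=
  (Primrec.list_getD (0 : ℕ)).comp (Primrec.fst.comp hx) (Primrec.const j)

theorem dc_cd (j : ℕ) : Primrec fun a => nth (x a).2.1 j :=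
  primrec_nth.comp (Primrec.fst.comp (Primrec.snd.comp hx)) (Primrec.const j)

theorem dc_fm (j : ℕ) {i : α → ℕ} (hi : Primrec i) : Primrec fun a => nth2 (x a).2.2.1 j (i a) :=
  primrec_nth2.comp (Primrec.pair (Primrec.fst.comp (Primrec.snd.comp (Primrec.snd.comp hx)))
    (Primrec.pair (Primrec.const j) hi))

theorem dc_c : Primrec fun a => (dOf (x a)).c := dc_nat hx 0

theorem dc_e : Primrec fun a => (dOf (x a)).e := dc_nat hx 1

theorem dc_s : Primrec fun a => (dOf (x a)).s := dc_nat hx 2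

theorem dc_W : Primrec fun a => (dOf (x a)).W := dc_nat hx 3

theorem dc_m : Primrec fun a => (dOf (x a)).m := dc_nat hx 4

theorem dc_l : Primrec fun a => (dOf (x a)).l := dc_nat hx 5

theorem dc_D : UC fun a => (dOf (x a)).D := UC.code (dc_cd hx 0)

theorem dc_pi : PC fun a => (dOf (x a)).pi := PC.code (dc_cd hx 1)

theorem dc_v : PC fun a => (dOf (x a)).v := PC.code (dc_cd hx 2)

theorem dc_g : PC fun a => (dOf (x a)).g := PC.code (dc_cd hx 3)

theorem dc_eta : PC fun a => (dOf (x a)).eta := PC.code (dc_cd hx 4)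

theorem dc_U : UC fun a => (dOf (x a)).U := UC.code (dc_cd hx 5)

theorem dc_V : UC fun a => (dOf (x a)).V := UC.code (dc_cd hx 6)

theorem dc_z {i : α → ℕ} (hi : Primrec i) : PC fun a => (dOf (x a)).z (i a) :=
  PC.code (dc_fm hx 0 hi)

theorem dc_phi {i : α → ℕ} (hi : Primrec i) : PC fun a => (dOf (x a)).phi (i a) :=
  PC.code (dc_fm hx 1 hi)

theorem dc_rho {i : α → ℕ} (hi : Primrec i) : PC fun a => (dOf (x a)).rho (i a) :=
  PC.code (dc_fm hx 2 hi)

theorem dc_b {k i u : α → ℕ} (hk : Primrec k) (hi : Primrec i) (hu : Primrec u) :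
    UC fun a => (dOf (x a)).b (k a) (i a) (u a) :=
  UC.code (primrec_nth3.comp (Primrec.pair (Primrec.fst.comp (Primrec.snd.comp (Primrec.snd.comp
    (Primrec.snd.comp hx)))) (Primrec.pair hk (Primrec.pair hi hu))))

theorem dc_lam {k : α → ℕ} (hk : Primrec k) : IC fun a => (dOf (x a)).lam (k a) :=
  IC.code ((Primrec.list_getD ((0, 0) : ℕ × ℕ)).comp (Primrec.snd.comp (Primrec.snd.comp
    (Primrec.snd.comp (Primrec.snd.comp hx)))) hk)

theorem dc_lam0 : IC fun a => (dOf (x a)).lam0 :=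
  IC.code (Primrec.pair (dc_nat hx 6) (dc_nat hx 7))

theorem dc_N0 : IC fun a => (dOf (x a)).N0 :=
  IC.code (Primrec.pair (dc_nat hx 8) (dc_nat hx 9))

end

/-- all data have codes -/
theorem exists_dc (d : Dt) : ∃ x : DC, (dOf x).c = d.c ∧ (dOf x).e = d.e ∧ (dOf x).s = d.s ∧
    (dOf x).W = d.W ∧ (dOf x).m = d.m ∧ (dOf x).l = d.l ∧ (dOf x).D = d.D ∧ (dOf x).pi = d.pi ∧
    (dOf x).v = d.v ∧ (dOf x).g = d.g ∧ (dOf x).eta = d.eta ∧ (dOf x).lam0 = d.lam0 ∧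
    (dOf x).U = d.U ∧ (dOf x).V = d.V ∧ (dOf x).N0 = d.N0 ∧ (∀ i < d.s, (dOf x).z i = d.z i) ∧
    (∀ k < d.m, (dOf x).phi k = d.phi k) ∧ (∀ k < d.m, (dOf x).rho k = d.rho k) ∧
    (∀ k < d.m, (dOf x).lam k = d.lam k) ∧
    ∀ k < d.m, ∀ i < d.s, ∀ u < 4 * d.W, (dOf x).b k i u = d.b k i u := by
  obtain ⟨D, hD⟩ := exists_uni d.D
  obtain ⟨U, hU⟩ := exists_uni d.U
  obtain ⟨V, hV⟩ := exists_uni d.V
  obtain ⟨pi, hpi⟩ := exists_code d.pi
  obtain ⟨v, hv⟩ := exists_code d.v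
  obtain ⟨g, hg⟩ := exists_code d.g
  obtain ⟨eta, heta⟩ := exists_code d.eta
  obtain ⟨z, hz⟩ := exists_nth d.z d.s
  obtain ⟨phi, hphi⟩ := exists_nth d.phi d.m
  obtain ⟨rho, hrho⟩ := exists_nth d.rho d.m
  obtain ⟨b, hb⟩ := exists_unth3 d.b d.m d.s (4 * d.W)
  choose lam hlam using fun k => exists_iv (d.lam k)
  obtain ⟨lam0, hlam0⟩ := exists_iv d.lam0
  obtain ⟨N0, hN0⟩ := exists_iv d.N0
  refine ⟨([d.c, d.e, d.s, d.W, d.m, d.l, lam0.1, lam0.2, N0.1, N0.2], [D, pi, v, g, eta, U, V],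
    [z, phi, rho], b, (List.range d.m).map lam), rfl, rfl, rfl, rfl, rfl, rfl, hD, hpi,
    hv, hg, heta, hlam0, hU, hV, hN0, hz, hphi, hrho, fun k hk => ?_, hb⟩
  show iv (((List.range d.m).map lam).getD k (0, 0)) = d.lam k
  rw [getD_map_range _ _ _ _ hk, hlam]

end Pool.Agent.H69.SFA
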