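import Pool.Agent.H69.SFA.Pc

/-!
# [H69 SFA Eqb] THEOREM SF, clause (4), chapter K3: `Eqv`, `Bd`, `Ig` are recursively enumerable
-/

namespace Pool.Agent.H69.SFA

open MvPolynomial Pool.Agent.H8.Siegel Pool.Agent.H69.AL Pool.Agent.H98.AL Pool.Agent.H85.SA

variable {α : Type*} [Primcodable α]

theorem PC.zero : PC fun _ : α => (0 : P2) := ⟨fun _ => [], Primrec.const _, fun _ => by simp⟩

theorem sr_eqv {G A B : α → P2} (hG : PC G) (hA : PC A) (hB : PC B) :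
    SR fun a => Eqv (G a) (A a) (B a) := by
  unfold Eqv
  refine SR.exI (P := fun a μ => ∃ Q : P2, μ ≠ 0 ∧ MvPolynomial.C μ * (A a - B a) = G a * Q) ?_
  refine SR.exP (P := fun (p : α × (ℕ × ℕ)) Q => iv p.2 ≠ 0 ∧
    MvPolynomial.C (iv p.2) * (A p.1 - B p.1) = G p.1 * Q) ?_
  have i1 : Primrec fun p : (α × (ℕ × ℕ)) × Code => p.1.1 := Primrec.fst.comp Primrec.fst
  have i2 : IC fun p : (α × (ℕ × ℕ)) × Code => iv p.1.2 := IC.code (Primrec.snd.comp Primrec.fst)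
  have i3 : PC fun p : (α × (ℕ × ℕ)) × Code => toPoly p.2 := PC.code Primrec.snd
  exact SR.of_prim ((i2.ne (IC.const 0)).and
    (((PC.C i2).mul ((hA.comp i1).sub (hB.comp i1))).eq ((hG.comp i1).mul i3)))

theorem sr_bd {G D A : α → P2} {Z : α → ℕ} (hG : PC G) (hZ : Primrec Z) (hD : PC D) (hA : PC A) :
    SR fun a => Bd (G a) (Z a) (D a) (A a) := by
  unfold Bd
  refine SR.ex (P := fun a (N : ℕ) => ∃ (s : ℕ → Polynomial ℤ) (Q : P2), 1 ≤ N ∧ N ≤ Z a ∧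
    s 0 ≠ 0 ∧ (∀ j ≤ N, (s j).natDegree ≤ (s 0).natDegree ∧ Sz (Z a) (s j)) ∧
    ∑ j ∈ Finset.range (N + 1), H85.SA.em (s j) * A a ^ (N - j) * D a ^ j = G a * Q) ?_
  refine SR.exUf (P := fun (p : α × ℕ) s => ∃ (Q : P2), 1 ≤ p.2 ∧ p.2 ≤ Z p.1 ∧
    s 0 ≠ 0 ∧ (∀ j ≤ p.2, (s j).natDegree ≤ (s 0).natDegree ∧ Sz (Z p.1) (s j)) ∧
    ∑ j ∈ Finset.range (p.2 + 1), H85.SA.em (s j) * A p.1 ^ (p.2 - j) * D p.1 ^ j = G p.1 * Q)
    (fun p => p.2 + 1) ?_ ?_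
  · rintro p f g hfg ⟨Q, h1, h2, h3, h4, h5⟩
    have h0 := hfg 0 (Nat.succ_pos _)
    refine ⟨Q, h1, h2, h0 ▸ h3, fun j hj => ?_, ?_⟩
    · rw [← hfg j (Nat.lt_succ_of_le hj), ← h0]
      exact h4 j hj
    · rw [← h5]
      exact Finset.sum_congr rfl fun j hj => by rw [hfg j (Finset.mem_range.1 hj)]
  refine SR.exP (P := fun (p : (α × ℕ) × List Code) Q => 1 ≤ p.1.2 ∧ p.1.2 ≤ Z p.1.1 ∧
    uni (nth p.2 0) ≠ 0 ∧ (∀ j ≤ p.1.2, (uni (nth p.2 j)).natDegree ≤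
      (uni (nth p.2 0)).natDegree ∧ Sz (Z p.1.1) (uni (nth p.2 j))) ∧
    ∑ j ∈ Finset.range (p.1.2 + 1), H85.SA.em (uni (nth p.2 j)) * A p.1.1 ^ (p.1.2 - j) *
      D p.1.1 ^ j = G p.1.1 * Q) ?_
  have i0 : Primrec fun p : ((α × ℕ) × List Code) × Code => p.1.1.1 :=
    Primrec.fst.comp (Primrec.fst.comp Primrec.fst)
  have iN : Primrec fun p : ((α × ℕ) × List Code) × Code => p.1.1.2 :=
    Primrec.snd.comp (Primrec.fst.comp Primrec.fst)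
  have il : Primrec fun p : ((α × ℕ) × List Code) × Code => p.1.2 :=
    Primrec.snd.comp Primrec.fst
  have iQ : PC fun p : ((α × ℕ) × List Code) × Code => toPoly p.2 := PC.code Primrec.snd
  have iZ := hZ.comp i0
  have is0 : UC fun p : ((α × ℕ) × List Code) × Code => uni (nth p.1.2 0) :=
    UC.code (primrec_nth.comp il (Primrec.const 0))
  have js : UC fun p : (((α × ℕ) × List Code) × Code) × ℕ => uni (nth p.1.1.2 p.2) :=
    UC.code (primrec_nth.comp (il.comp Primrec.fst) Primrec.snd)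
  have h1 : PrimrecPred fun p : ((α × ℕ) × List Code) × Code => 1 ≤ p.1.1.2 :=
    PrimrecRel.comp Primrec.nat_le (Primrec.const 1) iN
  have h2 : PrimrecPred fun p : ((α × ℕ) × List Code) × Code => p.1.1.2 ≤ Z p.1.1.1 :=
    PrimrecRel.comp Primrec.nat_le iN iZ
  have h4 : PrimrecPred fun p : ((α × ℕ) × List Code) × Code => ∀ j < p.1.1.2 + 1,
      (uni (nth p.1.2 j)).natDegree ≤ (uni (nth p.1.2 0)).natDegree ∧
        Sz (Z p.1.1.1) (uni (nth p.1.2 j)) :=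
    primrec_all (R := fun (p : ((α × ℕ) × List Code) × Code) j =>
      (uni (nth p.1.2 j)).natDegree ≤ (uni (nth p.1.2 0)).natDegree ∧
        Sz (Z p.1.1.1) (uni (nth p.1.2 j)))
      ((PrimrecRel.comp Primrec.nat_le js.natDegree (is0.comp Primrec.fst).natDegree).and
        (js.sz (iZ.comp Primrec.fst))) (Primrec.succ.comp iN)
  have h5 : PC fun p : ((α × ℕ) × List Code) × Code => ∑ j ∈ Finset.range (p.1.1.2 + 1),
      H85.SA.em (uni (nth p.1.2 j)) * A p.1.1.1 ^ (p.1.1.2 - j) * D p.1.1.1 ^ j :=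
    PC.sum (F := fun (p : ((α × ℕ) × List Code) × Code) j =>
      H85.SA.em (uni (nth p.1.2 j)) * A p.1.1.1 ^ (p.1.1.2 - j) * D p.1.1.1 ^ j)
      ((js.em.mul ((hA.comp (i0.comp Primrec.fst)).pow
        (Primrec.nat_sub.comp (iN.comp Primrec.fst) Primrec.snd))).mul
        ((hD.comp (i0.comp Primrec.fst)).pow Primrec.snd)) (Primrec.succ.comp iN)
  refine (SR.of_prim (h1.and (h2.and (is0.ne_zero.and (h4.and
    (h5.eq ((hG.comp i0).mul iQ))))))).of_iff fun p => ?_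
  simp only [Nat.lt_succ_iff]

theorem sr_ig {G D A : α → P2} {Z : α → ℕ} (hG : PC G) (hZ : Primrec Z) (hD : PC D) (hA : PC A) :
    SR fun a => Ig (G a) (Z a) (D a) (A a) := by
  unfold Ig
  refine SR.ex (P := fun a (N : ℕ) => ∃ (e : ℕ) (s : ℕ → Polynomial ℤ) (Q : P2), 1 ≤ N ∧ 1 ≤ e ∧
    e ≤ Z a ∧ s 0 = Polynomial.C (e : ℤ) ∧
    ∑ j ∈ Finset.range (N + 1), H85.SA.em (s j) * A a ^ (N - j) * D a ^ j = G a * Q) ?_
  refine SR.ex (P := fun (p : α × ℕ) (e : ℕ) => ∃ (s : ℕ → Polynomial ℤ) (Q : P2), 1 ≤ p.2 ∧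
    1 ≤ e ∧ e ≤ Z p.1 ∧ s 0 = Polynomial.C (e : ℤ) ∧
    ∑ j ∈ Finset.range (p.2 + 1), H85.SA.em (s j) * A p.1 ^ (p.2 - j) * D p.1 ^ j =
      G p.1 * Q) ?_
  refine SR.exUf (P := fun (p : (α × ℕ) × ℕ) s => ∃ (Q : P2), 1 ≤ p.1.2 ∧ 1 ≤ p.2 ∧
    p.2 ≤ Z p.1.1 ∧ s 0 = Polynomial.C (p.2 : ℤ) ∧
    ∑ j ∈ Finset.range (p.1.2 + 1), H85.SA.em (s j) * A p.1.1 ^ (p.1.2 - j) * D p.1.1 ^ j =
      G p.1.1 * Q) (fun p => p.1.2 + 1) ?_ ?_
  · rintro p f g hfg ⟨Q, h1, h2, h3, h4, h5⟩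
    have h0 := hfg 0 (Nat.succ_pos _)
    refine ⟨Q, h1, h2, h3, h0 ▸ h4, ?_⟩
    rw [← h5]
    exact Finset.sum_congr rfl fun j hj => by rw [hfg j (Finset.mem_range.1 hj)]
  refine SR.exP (P := fun (p : ((α × ℕ) × ℕ) × List Code) Q => 1 ≤ p.1.1.2 ∧ 1 ≤ p.1.2 ∧
    p.1.2 ≤ Z p.1.1.1 ∧ uni (nth p.2 0) = Polynomial.C (p.1.2 : ℤ) ∧
    ∑ j ∈ Finset.range (p.1.1.2 + 1), H85.SA.em (uni (nth p.2 j)) * A p.1.1.1 ^ (p.1.1.2 - j) *
      D p.1.1.1 ^ j = G p.1.1.1 * Q) ?_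
  have i0 : Primrec fun p : (((α × ℕ) × ℕ) × List Code) × Code => p.1.1.1.1 :=
    Primrec.fst.comp (Primrec.fst.comp (Primrec.fst.comp Primrec.fst))
  have iN : Primrec fun p : (((α × ℕ) × ℕ) × List Code) × Code => p.1.1.1.2 :=
    Primrec.snd.comp (Primrec.fst.comp (Primrec.fst.comp Primrec.fst))
  have ie : Primrec fun p : (((α × ℕ) × ℕ) × List Code) × Code => p.1.1.2 :=
    Primrec.snd.comp (Primrec.fst.comp Primrec.fst)
  have il : Primrec fun p : (((α × ℕ) × ℕ) × List Code) × Code => p.1.2 :=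
    Primrec.snd.comp Primrec.fst
  have iQ : PC fun p : (((α × ℕ) × ℕ) × List Code) × Code => toPoly p.2 := PC.code Primrec.snd
  have iZ := hZ.comp i0
  have is0 : UC fun p : (((α × ℕ) × ℕ) × List Code) × Code => uni (nth p.1.2 0) :=
    UC.code (primrec_nth.comp il (Primrec.const 0))
  have js : UC fun p : ((((α × ℕ) × ℕ) × List Code) × Code) × ℕ => uni (nth p.1.1.2 p.2) :=
    UC.code (primrec_nth.comp (il.comp Primrec.fst) Primrec.snd)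
  have h1 : PrimrecPred fun p : (((α × ℕ) × ℕ) × List Code) × Code => 1 ≤ p.1.1.1.2 :=
    PrimrecRel.comp Primrec.nat_le (Primrec.const 1) iN
  have h2 : PrimrecPred fun p : (((α × ℕ) × ℕ) × List Code) × Code => 1 ≤ p.1.1.2 :=
    PrimrecRel.comp Primrec.nat_le (Primrec.const 1) ie
  have h3 : PrimrecPred fun p : (((α × ℕ) × ℕ) × List Code) × Code => p.1.1.2 ≤ Z p.1.1.1.1 :=
    PrimrecRel.comp Primrec.nat_le ie iZ
  have h4 : PrimrecPred fun p : (((α × ℕ) × ℕ) × List Code) × Code =>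
      uni (nth p.1.2 0) = Polynomial.C (p.1.1.2 : ℤ) := is0.eq (UC.C (IC.nat ie))
  have h5 : PC fun p : (((α × ℕ) × ℕ) × List Code) × Code => ∑ j ∈ Finset.range (p.1.1.1.2 + 1),
      H85.SA.em (uni (nth p.1.2 j)) * A p.1.1.1.1 ^ (p.1.1.1.2 - j) * D p.1.1.1.1 ^ j :=
    PC.sum (F := fun (p : (((α × ℕ) × ℕ) × List Code) × Code) j =>
      H85.SA.em (uni (nth p.1.2 j)) * A p.1.1.1.1 ^ (p.1.1.1.2 - j) * D p.1.1.1.1 ^ j)
      ((js.em.mul ((hA.comp (i0.comp Primrec.fst)).pow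
        (Primrec.nat_sub.comp (iN.comp Primrec.fst) Primrec.snd))).mul
        ((hD.comp (i0.comp Primrec.fst)).pow Primrec.snd)) (Primrec.succ.comp iN)
  exact SR.of_prim (h1.and (h2.and (h3.and (h4.and (h5.eq ((hG.comp i0).mul iQ))))))

end Pool.Agent.H69.SFA
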