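import Pool.Agent.H69.SFA.Cerc
import Pool.Agent.H37.SFA.Cgr

/-!
# [H69 SFA Fc] THEOREM SF, clause (4), chapter K3: the existence of a certificate is recursively enumerable
-/

namespace Pool.Agent.H69.SFA

open MvPolynomial Pool.Agent.H8.Siegel Pool.Agent.H69.AL Pool.Agent.H98.AL Pool.Agent.H85.SA

theorem sr_cer_of {α : Type*} [Primcodable α] {F : α → P2} (hF : PC F) {q : α → Polynomial ℤ}
    (hq : UC q) {κ Z : α → ℕ} (hκ : Primrec κ) (hZ : Primrec Z)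
    (hJ : SR fun p : α × DC => Jets (q p.1) (dOf p.2)) :
    SR fun a => ∃ d, Cer (F a) (q a) (κ a) (Z a) d := by
  have h1 : SR fun p : α × DC => Cer (F p.1) (q p.1) (κ p.1) (Z p.1) (dOf p.2) :=
    sr_cer0 (hF.comp Primrec.fst) (hq.comp Primrec.fst) (hκ.comp Primrec.fst)
      (hZ.comp Primrec.fst) Primrec.snd hJ
  refine (SR.ex (P := fun (a : α) (x : DC) => Cer (F a) (q a) (κ a) (Z a) (dOf x)) h1).of_iff
    fun a => ⟨fun ⟨d, hd⟩ => ?_, fun ⟨x, hx⟩ => ⟨_, hx⟩⟩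
  obtain ⟨x, h1, h2, h3, h4, h5, h6, h7, h8, h9, h10, h11, h12, h13, h14, h15, h16, h17, h18, h19,
    h20⟩ := exists_dc d
  exact ⟨x, H37.SFA.cer_congr hd h1 h2 h3 h4 h5 h6 h7 h8 h9 h10 h11 h12 h13 h14 h15 h16 h17 h18 h19
    h20⟩

end Pool.Agent.H69.SFA
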