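import Pool.Agent.H69.AL.Cert

/-!
# [H69 SFA Lst] THEOREM SF, clause (4), chapter K3: families of codes

`nth l i`: the code number `i` of a list of codes; `nth2`, `nth3`: families with two and three indices. `sumC f n`,
`prodC f n`: sum and product of the codes `f i`, `i < n`. All are primitive recursive. The code number of the witness
bounds all entries, exponents and lengths (`smC_le_encode`, `mem_le_encode`).
-/

namespace Pool.Agent.H69.SFA

open MvPolynomial Pool.Agent.H8.Siegel Pool.Agent.H69.AL Pool.Agent.H98.AL

/-! Families. -/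

/-- the code number `i` -/
def nth (l : List Code) (i : ℕ) : Code := l.getD i []

/-- two indices -/
def nth2 (l : List (List Code)) (i j : ℕ) : Code := nth (l.getD i []) j

/-- three indices -/
def nth3 (l : List (List (List Code))) (i j k : ℕ) : Code := nth2 (l.getD i []) j k

theorem primrec_nth : Primrec₂ nth := Primrec.list_getD []

theorem primrec_nth2 : Primrec fun p : List (List Code) × ℕ × ℕ => nth2 p.1 p.2.1 p.2.2 := by
  unfold nth2
  have h1 : Primrec fun p : List (List Code) × ℕ × ℕ => p.1.getD p.2.1 [] :=
    (Primrec.list_getD []).comp Primrec.fst (Primrec.fst.comp Primrec.snd)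
  exact primrec_nth.comp h1 (Primrec.snd.comp Primrec.snd)

theorem primrec_nth3 : Primrec fun p : List (List (List Code)) × ℕ × ℕ × ℕ =>
    nth3 p.1 p.2.1 p.2.2.1 p.2.2.2 := by
  unfold nth3
  have h1 : Primrec fun p : List (List (List Code)) × ℕ × ℕ × ℕ => p.1.getD p.2.1 [] :=
    (Primrec.list_getD []).comp Primrec.fst (Primrec.fst.comp Primrec.snd)
  exact primrec_nth2.comp (Primrec.pair h1 (Primrec.snd.comp Primrec.snd))

theorem getD_map_range {β : Type*} (f : ℕ → β) (n i : ℕ) (d : β) (hi : i < n) :
    ((List.range n).map f).getD i d = f i := by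
  rw [List.getD_eq_getElem?_getD, List.getElem?_map, List.getElem?_range hi]
  rfl

/-- every finite family of polynomials has codes -/
theorem exists_nth (f : ℕ → P2) (n : ℕ) : ∃ l : List Code, ∀ i < n, toPoly (nth l i) = f i := by
  choose c hc using fun i => exists_code (f i)
  exact ⟨(List.range n).map c, fun i hi => by rw [nth, getD_map_range _ _ _ _ hi, hc]⟩

theorem exists_nth2 (f : ℕ → ℕ → P2) (n m : ℕ) : ∃ l : List (List Code), ∀ i < n, ∀ j < m,
    toPoly (nth2 l i j) = f i j := by
  choose c hc using fun i => exists_nth (f i) m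
  exact ⟨(List.range n).map c, fun i hi j hj => by
    rw [nth2, getD_map_range _ _ _ _ hi, hc _ _ hj]⟩

theorem exists_nth3 (f : ℕ → ℕ → ℕ → P2) (n m r : ℕ) : ∃ l : List (List (List Code)),
    ∀ i < n, ∀ j < m, ∀ k < r, toPoly (nth3 l i j k) = f i j k := by
  choose c hc using fun i => exists_nth2 (f i) m r
  exact ⟨(List.range n).map c, fun i hi j hj k hk => by
    rw [nth3, getD_map_range _ _ _ _ hi, hc _ _ hj _ hk]⟩

/-- the same for polynomials in one variable -/
theorem exists_unth (f : ℕ → Polynomial ℤ) (n : ℕ) : ∃ l : List Code,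
    ∀ i < n, uni (nth l i) = f i := by
  choose c hc using fun i => exists_uni (f i)
  exact ⟨(List.range n).map c, fun i hi => by rw [nth, getD_map_range _ _ _ _ hi, hc]⟩

theorem exists_unth2 (f : ℕ → ℕ → Polynomial ℤ) (n m : ℕ) : ∃ l : List (List Code),
    ∀ i < n, ∀ j < m, uni (nth2 l i j) = f i j := by
  choose c hc using fun i => exists_unth (f i) m
  exact ⟨(List.range n).map c, fun i hi j hj => by
    rw [nth2, getD_map_range _ _ _ _ hi, hc _ _ hj]⟩

theorem exists_unth3 (f : ℕ → ℕ → ℕ → Polynomial ℤ) (n m r : ℕ) :
    ∃ l : List (List (List Code)), ∀ i < n, ∀ j < m, ∀ k < r, uni (nth3 l i j k) = f i j k := by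
  choose c hc using fun i => exists_unth2 (f i) m r
  exact ⟨(List.range n).map c, fun i hi j hj k hk => by
    rw [nth3, getD_map_range _ _ _ _ hi, hc _ _ hj _ hk]⟩

/-! Sums and products. -/

/-- the sum of the codes `f i`, `i < n` -/
def sumC (f : ℕ → Code) (n : ℕ) : Code := (List.range n).flatMap f

theorem sumC_succ (f : ℕ → Code) (n : ℕ) : sumC f (n + 1) = sumC f n ++ f n := by
  simp [sumC, List.range_succ]

theorem toPoly_sumC (f : ℕ → Code) (n : ℕ) :
    toPoly (sumC f n) = ∑ i ∈ Finset.range n, toPoly (f i) := by
  induction n with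
  | zero => simp [sumC]
  | succ n ih => rw [sumC_succ, toPoly_append, ih, Finset.sum_range_succ]

theorem uni_append (c d : Code) : uni (c ++ d) = uni c + uni d := by
  simp [uni]

theorem uni_sumC (f : ℕ → Code) (n : ℕ) :
    uni (sumC f n) = ∑ i ∈ Finset.range n, uni (f i) := by
  induction n with
  | zero => simp [sumC, uni]
  | succ n ih => rw [sumC_succ, uni_append, ih, Finset.sum_range_succ]

theorem primrec_sumC {α : Type*} [Primcodable α] {f : α → ℕ → Code} {n : α → ℕ}
    (hf : Primrec₂ f) (hn : Primrec n) : Primrec fun a => sumC (f a) (n a) := by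
  unfold sumC
  exact Primrec.list_flatMap (Primrec.list_range.comp hn) hf

/-- the product of the codes `f i`, `i < n` -/
def prodC (f : ℕ → Code) (n : ℕ) : Code :=
  ((List.range n).map f).foldr (fun c d => mulC c d) [(1, 0, 0, 0)]

theorem toPoly_one : toPoly [(1, 0, 0, 0)] = 1 := by simp [term]

theorem uni_one : uni [(1, 0, 0, 0)] = 1 := by simp [uni, uterm]

theorem toPoly_foldr (l : List Code) : toPoly (l.foldr (fun c d => mulC c d) [(1, 0, 0, 0)]) =
    (l.map toPoly).prod := by
  induction l with
  | nil => simp only [List.foldr_nil, List.map_nil, List.prod_nil]; exact toPoly_one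
  | cons c l ih => rw [List.foldr_cons, toPoly_mulC, ih, List.map_cons, List.prod_cons]

theorem uni_foldr (l : List Code) : uni (l.foldr (fun c d => mulC c d) [(1, 0, 0, 0)]) =
    (l.map uni).prod := by
  induction l with
  | nil => simp only [List.foldr_nil, List.map_nil, List.prod_nil]; exact uni_one
  | cons c l ih => rw [List.foldr_cons, uni_mulC, ih, List.map_cons, List.prod_cons]

theorem prod_list_range {M : Type*} [CommMonoid M] (f : ℕ → M) (n : ℕ) :
    ((List.range n).map f).prod = ∏ i ∈ Finset.range n, f i := by
  induction n with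
  | zero => simp
  | succ n ih => rw [List.prod_range_succ, ih, Finset.prod_range_succ]

theorem toPoly_prodC (f : ℕ → Code) (n : ℕ) :
    toPoly (prodC f n) = ∏ i ∈ Finset.range n, toPoly (f i) := by
  rw [prodC, toPoly_foldr, List.map_map, ← prod_list_range]
  rfl

theorem uni_prodC (f : ℕ → Code) (n : ℕ) :
    uni (prodC f n) = ∏ i ∈ Finset.range n, uni (f i) := by
  rw [prodC, uni_foldr, List.map_map, ← prod_list_range]
  rfl

theorem primrec_prodC {α : Type*} [Primcodable α] {f : α → ℕ → Code} {n : α → ℕ}
    (hf : Primrec₂ f) (hn : Primrec n) : Primrec fun a => prodC (f a) (n a) := by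
  unfold prodC
  refine Primrec.list_foldr (Primrec.list_map (Primrec.list_range.comp hn) hf)
    (Primrec.const _) (h := fun (_ : α) (p : Code × Code) => mulC p.1 p.2) ?_
  exact primrec_mulC.comp (Primrec.fst.comp Primrec.snd) (Primrec.snd.comp Primrec.snd)

/-! Bounded quantifiers. -/

theorem primrec_all {α : Type*} [Primcodable α] {R : α → ℕ → Prop} {n : α → ℕ}
    (hR : PrimrecPred fun p : α × ℕ => R p.1 p.2) (hn : Primrec n) :
    PrimrecPred fun a => ∀ i < n a, R a i := by
  have h1 : PrimrecRel fun (i : ℕ) (a : α) => R a i :=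
    PrimrecPred.comp hR (Primrec.pair Primrec.snd Primrec.fst)
  have h2 : PrimrecPred fun a : α => ∀ i ∈ List.range (n a), R a i :=
    PrimrecRel.comp (PrimrecRel.forall_mem_list h1) (Primrec.list_range.comp hn) Primrec.id
  exact h2.of_eq fun a => by simp only [List.mem_range]

/-! The code number bounds everything. -/

open Encodable in
theorem encode_cons {β : Type*} [Encodable β] (a : β) (l : List β) :
    encode (a :: l) = (Nat.pair (encode a) (encode l)).succ := rfl

open Encodable in
theorem encode_pair {β γ : Type*} [Encodable β] [Encodable γ] (a : β) (b : γ) :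
    encode (a, b) = Nat.pair (encode a) (encode b) := rfl

open Encodable in
theorem fst_le_encode {β γ : Type*} [Encodable β] [Encodable γ] (p : β × γ) :
    encode p.1 ≤ encode p := by
  obtain ⟨a, b⟩ := p
  rw [encode_pair]
  exact Nat.left_le_pair _ _

open Encodable in
theorem snd_le_encode {β γ : Type*} [Encodable β] [Encodable γ] (p : β × γ) :
    encode p.2 ≤ encode p := by
  obtain ⟨a, b⟩ := p
  rw [encode_pair]
  exact Nat.right_le_pair _ _

open Encodable in
theorem mem_le_encode {β : Type*} [Encodable β] {a : β} {l : List β} (h : a ∈ l) :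
    encode a ≤ encode l := by
  induction l with
  | nil => simp at h
  | cons b l ih =>
    rw [encode_cons]
    rcases List.mem_cons.1 h with rfl | h
    · exact (Nat.left_le_pair _ _).trans (Nat.le_succ _)
    · exact (ih h).trans ((Nat.right_le_pair _ _).trans (Nat.le_succ _))

open Encodable in
theorem length_le_encode {β : Type*} [Encodable β] (l : List β) : l.length ≤ encode l := by
  induction l with
  | nil => simp
  | cons b l ih =>
    rw [encode_cons, List.length_cons]
    exact Nat.succ_le_succ (ih.trans (Nat.right_le_pair _ _))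

open Encodable in
theorem getD_le_encode {β : Type*} [Encodable β] (l : List (List β)) (i : ℕ) :
    encode (l.getD i []) ≤ encode l := by
  rcases lt_or_ge i l.length with h | h
  · rw [List.getD_eq_getElem _ _ h]
    exact mem_le_encode (List.getElem_mem h)
  · rw [List.getD_eq_default _ _ h]
    simp

open Encodable in
theorem nth_le_encode (l : List Code) (i : ℕ) : encode (nth l i) ≤ encode l :=
  getD_le_encode _ _

open Encodable in
theorem nth2_le_encode (l : List (List Code)) (i j : ℕ) : encode (nth2 l i j) ≤ encode l :=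
  (nth_le_encode _ _).trans (getD_le_encode _ _)

open Encodable in
theorem nth3_le_encode (l : List (List (List Code))) (i j k : ℕ) :
    encode (nth3 l i j k) ≤ encode l :=
  (nth2_le_encode _ _ _).trans (getD_le_encode _ _)

open Encodable in
theorem smC_le_encode (c : Code) : smC c ≤ encode c := by
  induction c with
  | nil => simp [smC]
  | cons t c ih =>
    have h1 : smC (t :: c) = t.1 + t.2.1 + smC c := rfl
    obtain ⟨p, q, i, j⟩ := t
    rw [h1, encode_cons, encode_pair, encode_pair]
    have h2 : p + q ≤ Nat.pair p (Nat.pair q (encode (i, j))) :=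
      (Nat.add_le_add_left (Nat.left_le_pair q _) p).trans (Nat.add_le_pair _ _)
    have h3 := Nat.add_le_pair (Nat.pair p (Nat.pair q (encode (i, j)))) (encode c)
    show p + q + smC c ≤ (Nat.pair (Nat.pair p (Nat.pair q (encode (i, j)))) (encode c)).succ
    omega

open Encodable in
theorem mxC_le_encode (c : Code) : mxC c ≤ encode c := by
  rw [mxC_le]
  intro t ht
  refine le_trans ?_ (mem_le_encode ht)
  obtain ⟨p, q, i, j⟩ := t
  rw [encode_pair, encode_pair, encode_pair]
  exact (Nat.left_le_pair i _).trans ((Nat.right_le_pair q _).trans (Nat.right_le_pair p _))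

end Pool.Agent.H69.SFA
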