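import Pool.Agent.H69.SFA.Eqb
import Pool.Agent.H85.SA.Spd

/-!
# [H69 SFA Spc] THEOREM SF, clause (4), chapter K3: the certificate for `Special` is recursively enumerable
-/

namespace Pool.Agent.H69.SFA

open Pool.Agent.H8.Siegel Pool.Agent.H69.AL Pool.Agent.H98.AL Pool.Agent.H85.SA

variable {α : Type*} [Primcodable α]

/-! More operations with integers. -/

theorem IC.pow {F : α → ℤ} (hF : IC F) {n : α → ℕ} (hn : Primrec n) : IC fun a => F a ^ n a := by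
  have h2 := ((UC.C hF).pow hn).coeff (Primrec.const 0)
  simpa only [← Polynomial.C_pow, Polynomial.coeff_C_zero] using h2

theorem IC.sum {F : α → ℕ → ℤ} {n : α → ℕ} (hF : IC fun p : α × ℕ => F p.1 p.2) (hn : Primrec n) :
    IC fun a => ∑ i ∈ Finset.range (n a), F a i := by
  have h2 := (UC.sum (F := fun a i => Polynomial.C (F a i)) (UC.C hF) hn).coeff (Primrec.const 0)
  simpa only [Polynomial.finsetSum_coeff, Polynomial.coeff_C_zero] using h2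

theorem IC.abs {F : α → ℤ} (hF : IC F) : IC fun a => |F a| := by
  have h := IC.nat hF.natAbs
  simpa only [Int.natCast_natAbs] using h

theorem IC.lt {F G : α → ℤ} (hF : IC F) (hG : IC G) : PrimrecPred fun a => F a < G a :=
  ((hG.le hF).not).of_eq fun _ => not_le

/-- member `i` of a list of integers -/
def nthI (l : List (ℕ × ℕ)) (i : ℕ) : ℤ := iv (l.getD i (0, 0))

theorem ic_nthI {l : α → List (ℕ × ℕ)} {i : α → ℕ} (hl : Primrec l) (hi : Primrec i) :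
    IC fun a => nthI (l a) (i a) :=
  IC.code ((Primrec.list_getD ((0, 0) : ℕ × ℕ)).comp hl hi)

theorem exists_nthI (f : ℕ → ℤ) (n : ℕ) : ∃ l : List (ℕ × ℕ), ∀ i < n, nthI l i = f i := by
  choose c hc using fun i => exists_iv (f i)
  exact ⟨(List.range n).map c, fun i hi => by rw [nthI, getD_map_range _ _ _ _ hi, hc]⟩

theorem primrec_exl {R : α → ℕ → Prop} {n : α → ℕ}
    (hR : PrimrecPred fun p : α × ℕ => R p.1 p.2) (hn : Primrec n) :
    PrimrecPred fun a => ∃ i < n a, R a i := by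
  refine (primrec_all (R := fun a i => ¬ R a i) hR.not hn).not.of_eq fun a => ?_
  push Not
  rfl

theorem primrec_pwr {f g : α → ℕ} (hf : Primrec f) (hg : Primrec g) :
    Primrec fun a => f a ^ g a := primrec_pow.comp hf hg

/-! Graeffe's method. -/

theorem uc_nxt {r : α → ℕ} (hr : Primrec r) {p : α → Polynomial ℤ} (hp : UC p) :
    UC fun a => nxt (r a) (p a) := by
  have i1 : Primrec fun q : (α × ℕ) × ℕ => q.1.1 := Primrec.fst.comp Primrec.fst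
  have i2 : Primrec fun q : (α × ℕ) × ℕ => q.1.2 := Primrec.snd.comp Primrec.fst
  have h1 : IC fun q : (α × ℕ) × ℕ => (-1 : ℤ) ^ q.2 * (p q.1.1).coeff q.2 *
      (p q.1.1).coeff (2 * q.1.2 - q.2) :=
    (((IC.const (-1)).pow Primrec.snd).mul ((hp.comp i1).coeff Primrec.snd)).mul
      ((hp.comp i1).coeff (Primrec.nat_sub.comp (Primrec.nat_mul.comp (Primrec.const 2) i2)
        Primrec.snd))
  have h2 : IC fun q : α × ℕ => ∑ j ∈ Finset.range (2 * q.2 + 1), (-1 : ℤ) ^ j * (p q.1).coeff j *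
      (p q.1).coeff (2 * q.2 - j) :=
    IC.sum (F := fun (q : α × ℕ) j => (-1 : ℤ) ^ j * (p q.1).coeff j * (p q.1).coeff (2 * q.2 - j))
      h1 (Primrec.succ.comp (Primrec.nat_mul.comp (Primrec.const 2) Primrec.snd))
  have h3 : IC fun q : α × ℕ => (-1 : ℤ) ^ r q.1 * ∑ j ∈ Finset.range (2 * q.2 + 1),
      (-1 : ℤ) ^ j * (p q.1).coeff j * (p q.1).coeff (2 * q.2 - j) :=
    ((IC.const (-1)).pow (hr.comp Primrec.fst)).mul h2
  exact UC.sum (F := fun a n => Polynomial.C ((-1) ^ r a * ∑ j ∈ Finset.range (2 * n + 1),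
    (-1) ^ j * (p a).coeff j * (p a).coeff (2 * n - j)) * Polynomial.X ^ n)
    ((UC.C h3).mul (UC.X.pow Primrec.snd)) (Primrec.succ.comp hr)

/-! The grid. -/

theorem primrec_grid {q : α → Polynomial ℤ} (hq : UC q) {L Δ N X₀ : α → ℕ} (hL : Primrec L)
    (hΔ : Primrec Δ) (hN : Primrec N) (hX : Primrec X₀) {u v : α → List (ℕ × ℕ)} (hu : Primrec u)
    (hv : Primrec v) : PrimrecPred fun a => Grid (q a) (L a) (fun i => nthI (u a) i)
      (fun i => nthI (v a) i) (Δ a) (N a) (X₀ a) := by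
  unfold Grid
  have h1 : PrimrecPred fun a => 1 ≤ N a := PrimrecRel.comp Primrec.nat_le (Primrec.const 1) hN
  have h2 := hq.sz hX
  have hr := hq.natDegree
  have hX2 : Primrec fun a => X₀ a + 2 := Primrec.nat_add.comp hX (Primrec.const 2)
  -- the first alternative
  have i1 : Primrec fun p : (α × ℕ) × ℕ => p.1.1 := Primrec.fst.comp Primrec.fst
  have i2 : Primrec fun p : (α × ℕ) × ℕ => p.1.2 := Primrec.snd.comp Primrec.fst
  have e1 : IC fun p : (α × ℕ) × ℕ => ((p.1.2 : ℕ) : ℤ) - ((X₀ p.1.1 : ℤ) + 2) * (N p.1.1 : ℤ) :=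
    (IC.nat i2).sub (((IC.nat (hX.comp i1)).add (IC.const 2)).mul (IC.nat (hN.comp i1)))
  have eu : IC fun p : (α × ℕ) × ℕ => nthI (u p.1.1) p.2 := ic_nthI (hu.comp i1) Primrec.snd
  have ev : IC fun p : (α × ℕ) × ℕ => nthI (v p.1.1) p.2 := ic_nthI (hv.comp i1) Primrec.snd
  have eN : IC fun p : (α × ℕ) × ℕ => ((N p.1.1 : ℕ) : ℤ) := IC.nat (hN.comp i1)
  have a1 : PrimrecPred fun p : (α × ℕ) × ℕ => ((Δ p.1.1 : ℕ) : ℤ) *
      (|(((p.1.2 : ℕ) : ℤ) - ((X₀ p.1.1 : ℤ) + 2) * (N p.1.1 : ℤ)) * nthI (v p.1.1) p.2 -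
        nthI (u p.1.1) p.2 * (N p.1.1 : ℤ)| + nthI (v p.1.1) p.2) ≤
      (N p.1.1 : ℤ) * nthI (v p.1.1) p.2 :=
    ((IC.nat (hΔ.comp i1)).mul ((((e1.mul ev).sub (eu.mul eN)).abs).add ev)).le (eN.mul ev)
  have a2 : PrimrecPred fun p : α × ℕ => ∃ i < L p.1, ((Δ p.1 : ℕ) : ℤ) *
      (|(((p.2 : ℕ) : ℤ) - ((X₀ p.1 : ℤ) + 2) * (N p.1 : ℤ)) * nthI (v p.1) i -
        nthI (u p.1) i * (N p.1 : ℤ)| + nthI (v p.1) i) ≤ (N p.1 : ℤ) * nthI (v p.1) i :=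
    primrec_exl (R := fun (p : α × ℕ) i => ((Δ p.1 : ℕ) : ℤ) *
      (|(((p.2 : ℕ) : ℤ) - ((X₀ p.1 : ℤ) + 2) * (N p.1 : ℤ)) * nthI (v p.1) i -
        nthI (u p.1) i * (N p.1 : ℤ)| + nthI (v p.1) i) ≤ (N p.1 : ℤ) * nthI (v p.1) i) a1
      (hL.comp Primrec.fst)
  -- the second alternative
  have b1 : IC fun p : (α × ℕ) × ℕ => (q p.1.1).coeff p.2 *
      (((p.1.2 : ℕ) : ℤ) - ((X₀ p.1.1 : ℤ) + 2) * (N p.1.1 : ℤ)) ^ p.2 *
      (N p.1.1 : ℤ) ^ ((q p.1.1).natDegree - p.2) :=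
    (((hq.comp i1).coeff Primrec.snd).mul (e1.pow Primrec.snd)).mul
      (eN.pow (Primrec.nat_sub.comp (hr.comp i1) Primrec.snd))
  have b2 : IC fun p : α × ℕ => ∑ i ∈ Finset.range ((q p.1).natDegree + 1), (q p.1).coeff i *
      (((p.2 : ℕ) : ℤ) - ((X₀ p.1 : ℤ) + 2) * (N p.1 : ℤ)) ^ i *
      (N p.1 : ℤ) ^ ((q p.1).natDegree - i) :=
    IC.sum (F := fun (p : α × ℕ) i => (q p.1).coeff i *
      (((p.2 : ℕ) : ℤ) - ((X₀ p.1 : ℤ) + 2) * (N p.1 : ℤ)) ^ i *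
      (N p.1 : ℤ) ^ ((q p.1).natDegree - i)) b1 (Primrec.succ.comp (hr.comp Primrec.fst))
  have b3 : PrimrecPred fun p : α × ℕ =>
      (((X₀ p.1) ^ 2 * (X₀ p.1 + 2) ^ X₀ p.1 : ℕ) : ℤ) * (N p.1 : ℤ) ^ (q p.1).natDegree <
        (N p.1 : ℤ) * |∑ i ∈ Finset.range ((q p.1).natDegree + 1), (q p.1).coeff i *
          (((p.2 : ℕ) : ℤ) - ((X₀ p.1 : ℤ) + 2) * (N p.1 : ℤ)) ^ i *
          (N p.1 : ℤ) ^ ((q p.1).natDegree - i)| :=
    ((IC.nat (Primrec.nat_mul.comp (primrec_pwr (hX.comp Primrec.fst) (Primrec.const 2))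
      (primrec_pwr (hX2.comp Primrec.fst) (hX.comp Primrec.fst)))).mul
      ((IC.nat (hN.comp Primrec.fst)).pow (hr.comp Primrec.fst))).lt
      ((IC.nat (hN.comp Primrec.fst)).mul b2.abs)
  have c1 := primrec_all (R := fun (a : α) (j : ℕ) =>
    (∃ i < L a, ((Δ a : ℕ) : ℤ) * (|(((j : ℕ) : ℤ) - ((X₀ a : ℤ) + 2) * (N a : ℤ)) * nthI (v a) i -
      nthI (u a) i * (N a : ℤ)| + nthI (v a) i) ≤ (N a : ℤ) * nthI (v a) i) ∨
    (((X₀ a) ^ 2 * (X₀ a + 2) ^ X₀ a : ℕ) : ℤ) * (N a : ℤ) ^ (q a).natDegree <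
        (N a : ℤ) * |∑ i ∈ Finset.range ((q a).natDegree + 1), (q a).coeff i *
          (((j : ℕ) : ℤ) - ((X₀ a : ℤ) + 2) * (N a : ℤ)) ^ i * (N a : ℤ) ^ ((q a).natDegree - i)|)
    (n := fun a => 2 * (X₀ a + 2) * N a + 1) (a2.or b3)
    (Primrec.succ.comp (Primrec.nat_mul.comp (Primrec.nat_mul.comp (Primrec.const 2) hX2) hN))
  exact h1.and (h2.and c1)

/-! The certificate. -/

/-- codes of the data of `Spc`: `[k, P, B, L, Δ, N, X₀]`, `G`, `u`, `v` -/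
abbrev WS : Type := List ℕ × List Code × List (ℕ × ℕ) × List (ℕ × ℕ)

/-- the conditions of `Spc` on codes -/
def OkS (q : Polynomial ℤ) (κ Z : ℕ) (k P B L Δ N X₀ : ℕ) (G : List Code) (u v : List (ℕ × ℕ)) :
    Prop :=
  uni (nth G 0) = q ∧ (∀ i < k, uni (nth G (i + 1)) = nxt q.natDegree (uni (nth G i))) ∧
    ∑ i ∈ Finset.range (q.natDegree + 1), |(uni (nth G k)).coeff i| ≤ (P : ℤ) ∧ 1 ≤ B ∧
    B ^ 2 ^ k ≤ P ∧ P ≤ Z ∧ (∀ i < L, 1 ≤ nthI v i ∧ nthI v i ≤ B ∧ |nthI u i| ≤ B) ∧ 1 ≤ Δ ∧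
    (2 ^ q.natDegree) ^ (κ * 2 ^ k) * P ^ κ ≤ Δ ^ (q.natDegree * 2 ^ k) ∧
    Grid q L (fun i => nthI u i) (fun i => nthI v i) Δ N X₀

theorem primrec_okS {q : α → Polynomial ℤ} (hq : UC q) {κ Z k P B L Δ N X₀ : α → ℕ}
    {G : α → List Code} {u v : α → List (ℕ × ℕ)} (hκ : Primrec κ) (hZ : Primrec Z) (hk : Primrec k)
    (hP : Primrec P) (hB : Primrec B) (hL : Primrec L) (hΔ : Primrec Δ) (hN : Primrec N)
    (hX : Primrec X₀) (hG : Primrec G) (hu : Primrec u) (hv : Primrec v) :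
    PrimrecPred fun a => OkS (q a) (κ a) (Z a) (k a) (P a) (B a) (L a) (Δ a) (N a) (X₀ a) (G a)
      (u a) (v a) := by
  unfold OkS
  have hr := hq.natDegree
  have h2k : Primrec fun a => 2 ^ k a := primrec_pwr (Primrec.const 2) hk
  have hGn : ∀ {i : α → ℕ}, Primrec i → UC fun a => uni (nth (G a) (i a)) := fun hi =>
    UC.code (primrec_nth.comp hG hi)
  have gG : UC fun p : α × ℕ => uni (nth (G p.1) p.2) :=
    UC.code (primrec_nth.comp (hG.comp Primrec.fst) Primrec.snd)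
  have gG1 : UC fun p : α × ℕ => uni (nth (G p.1) (p.2 + 1)) :=
    UC.code (primrec_nth.comp (hG.comp Primrec.fst) (Primrec.succ.comp Primrec.snd))
  have a1 := (hGn (Primrec.const 0)).eq hq
  have a2 : PrimrecPred fun a => ∀ i < k a, uni (nth (G a) (i + 1)) =
      nxt (q a).natDegree (uni (nth (G a) i)) :=
    primrec_all (R := fun (a : α) (i : ℕ) => uni (nth (G a) (i + 1)) =
      nxt (q a).natDegree (uni (nth (G a) i))) (gG1.eq (uc_nxt (hr.comp Primrec.fst) gG)) hk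
  have a3 : PrimrecPred fun a => ∑ i ∈ Finset.range ((q a).natDegree + 1),
      |(uni (nth (G a) (k a))).coeff i| ≤ (P a : ℤ) :=
    (IC.sum (F := fun (a : α) i => |(uni (nth (G a) (k a))).coeff i|)
      (((hGn hk).comp Primrec.fst).coeff Primrec.snd).abs (Primrec.succ.comp hr)).le (IC.nat hP)
  have a4 : PrimrecPred fun a => 1 ≤ B a := PrimrecRel.comp Primrec.nat_le (Primrec.const 1) hB
  have a5 : PrimrecPred fun a => B a ^ 2 ^ k a ≤ P a :=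
    PrimrecRel.comp Primrec.nat_le (primrec_pwr hB h2k) hP
  have a6 : PrimrecPred fun a => P a ≤ Z a := PrimrecRel.comp Primrec.nat_le hP hZ
  have eu : IC fun p : α × ℕ => nthI (u p.1) p.2 := ic_nthI (hu.comp Primrec.fst) Primrec.snd
  have ev : IC fun p : α × ℕ => nthI (v p.1) p.2 := ic_nthI (hv.comp Primrec.fst) Primrec.snd
  have eB : IC fun p : α × ℕ => ((B p.1 : ℕ) : ℤ) := IC.nat (hB.comp Primrec.fst)
  have a7 : PrimrecPred fun a => ∀ i < L a, 1 ≤ nthI (v a) i ∧ nthI (v a) i ≤ (B a : ℤ) ∧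
      |nthI (u a) i| ≤ (B a : ℤ) :=
    primrec_all (R := fun (a : α) (i : ℕ) => 1 ≤ nthI (v a) i ∧ nthI (v a) i ≤ (B a : ℤ) ∧
      |nthI (u a) i| ≤ (B a : ℤ)) (((IC.const 1).le ev).and ((ev.le eB).and (eu.abs.le eB))) hL
  have a8 : PrimrecPred fun a => 1 ≤ Δ a := PrimrecRel.comp Primrec.nat_le (Primrec.const 1) hΔ
  have a9 : PrimrecPred fun a => (2 ^ (q a).natDegree) ^ (κ a * 2 ^ k a) * P a ^ κ a ≤
      Δ a ^ ((q a).natDegree * 2 ^ k a) :=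
    PrimrecRel.comp Primrec.nat_le (Primrec.nat_mul.comp
      (primrec_pwr (primrec_pwr (Primrec.const 2) hr) (Primrec.nat_mul.comp hκ h2k))
      (primrec_pwr hP hκ)) (primrec_pwr hΔ (Primrec.nat_mul.comp hr h2k))
  have a10 := primrec_grid hq hL hΔ hN hX hu hv
  exact a1.and (a2.and (a3.and (a4.and (a5.and (a6.and (a7.and (a8.and (a9.and a10))))))))

theorem spc_iff (q : Polynomial ℤ) (κ Z : ℕ) : Spc q κ Z ↔ (q.Monic ∧ Irreducible q) ∧
    2 ≤ q.natDegree ∧ ∃ x : WS, OkS q κ Z (x.1.getD 0 0) (x.1.getD 1 0) (x.1.getD 2 0)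
      (x.1.getD 3 0) (x.1.getD 4 0) (x.1.getD 5 0) (x.1.getD 6 0) x.2.1 x.2.2.1 x.2.2.2 := by
  constructor
  · rintro ⟨hm, hi, h2, k, P, B, L, Δ, N, X₀, G, u, v, h3, h4, h5, h6, h7, h8, h9, h10, h11, h12,
      h13, h14⟩
    obtain ⟨G', hG⟩ := exists_unth G (k + 1)
    obtain ⟨u', hu⟩ := exists_nthI u L
    obtain ⟨v', hv⟩ := exists_nthI v L
    refine ⟨⟨hm, hi⟩, h2, ([k, P, B, L, Δ, N, X₀], G', u', v'), ?_⟩
    show OkS q κ Z k P B L Δ N X₀ G' u' v'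
    refine ⟨?_, fun i hi => ?_, ?_, h6, h7, h8, fun i hi => ?_, h10, h11, h12, h13, fun j hj => ?_⟩
    · rw [hG 0 (by omega)]
      exact h3
    · rw [hG i (by omega), hG (i + 1) (by omega)]
      exact h4 i hi
    · rw [hG k (by omega)]
      exact h5
    · rw [hu i hi, hv i hi]
      exact h9 i hi
    · rcases h14 j hj with ⟨i, hi, h⟩ | h
      · refine Or.inl ⟨i, hi, ?_⟩
        beta_reduce
        rw [hu i hi, hv i hi]
        exact h
      · exact Or.inr h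
  · rintro ⟨⟨hm, hi⟩, h2, x, h3, h4, h5, h6, h7, h8, h9, h10, h11, h12⟩
    exact ⟨hm, hi, h2, _, _, _, _, _, _, _, fun i => uni (nth x.2.1 i), fun i => nthI x.2.2.1 i,
      fun i => nthI x.2.2.2 i, h3, h4, h5, h6, h7, h8, h9, h10, h11, h12⟩

theorem sr_spc_of {q : α → Polynomial ℤ} (hq : UC q) {κ Z : α → ℕ} (hκ : Primrec κ)
    (hZ : Primrec Z) (hI : SR fun a => (q a).Monic ∧ Irreducible (q a)) :
    SR fun a => Spc (q a) (κ a) (Z a) := by
  have hx : Primrec fun p : α × WS => p.2 := Primrec.snd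
  have h1 : ∀ j, Primrec fun p : α × WS => p.2.1.getD j 0 := fun j =>
    (Primrec.list_getD (0 : ℕ)).comp (Primrec.fst.comp hx) (Primrec.const j)
  have h2 : PrimrecPred fun p : α × WS => OkS (q p.1) (κ p.1) (Z p.1) (p.2.1.getD 0 0)
      (p.2.1.getD 1 0) (p.2.1.getD 2 0) (p.2.1.getD 3 0) (p.2.1.getD 4 0) (p.2.1.getD 5 0)
      (p.2.1.getD 6 0) p.2.2.1 p.2.2.2.1 p.2.2.2.2 :=
    primrec_okS (hq.comp Primrec.fst) (hκ.comp Primrec.fst) (hZ.comp Primrec.fst) (h1 0) (h1 1)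
      (h1 2) (h1 3) (h1 4) (h1 5) (h1 6) (Primrec.fst.comp (Primrec.snd.comp hx))
      (Primrec.fst.comp (Primrec.snd.comp (Primrec.snd.comp hx)))
      (Primrec.snd.comp (Primrec.snd.comp (Primrec.snd.comp hx)))
  have h3 : PrimrecPred fun a => 2 ≤ (q a).natDegree :=
    PrimrecRel.comp Primrec.nat_le (Primrec.const 2) hq.natDegree
  refine (hI.and ((SR.of_prim h3).and (SR.ex (P := fun (a : α) (x : WS) => OkS (q a) (κ a) (Z a)
    (x.1.getD 0 0) (x.1.getD 1 0) (x.1.getD 2 0) (x.1.getD 3 0) (x.1.getD 4 0) (x.1.getD 5 0)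
    (x.1.getD 6 0) x.2.1 x.2.2.1 x.2.2.2) (SR.of_prim h2)))).of_iff fun a => spc_iff _ _ _

end Pool.Agent.H69.SFA
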