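import Pool.Agent.H69.SFA.Spc
import Pool.Agent.H99.SFA.Irr

/-!
# [H69 SFA Sps] THEOREM SF, clause (4), chapter K3: `Spc` is recursively enumerable
-/

namespace Pool.Agent.H69.SFA

open Pool.Agent.H8.Siegel Pool.Agent.H69.AL Pool.Agent.H98.AL Pool.Agent.H85.SA

theorem sr_spc {α : Type*} [Primcodable α] {q : α → Polynomial ℤ} (hq : UC q) {κ Z : α → ℕ}
    (hκ : Primrec κ) (hZ : Primrec Z) : SR fun a => Spc (q a) (κ a) (Z a) :=
  sr_spc_of hq hκ hZ (SR.of_prim (H99.SFA.sr_irr hq))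

end Pool.Agent.H69.SFA
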