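import Pool.Agent.H69.SFA.Srch

/-!
# [H69 SFA Sr] THEOREM SF, clause (4), chapter K3: recursively enumerable predicates

`SR P`: `P` is the projection of a primitive recursive predicate. Closure under `∧`, `∨`, substitution, existential
quantifiers over a primitive codable type and bounded universal quantifiers; the search for a witness.
-/

namespace Pool.Agent.H69.SFA

open Encodable

/-- `P` is the projection of a primitive recursive predicate -/
def SR {α : Type*} [Primcodable α] (P : α → Prop) : Prop :=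
  ∃ R : α → ℕ → Prop, (PrimrecPred fun p : α × ℕ => R p.1 p.2) ∧ ∀ a, P a ↔ ∃ n, R a n

namespace SR

variable {α β γ : Type*} [Primcodable α] [Primcodable β] [Primcodable γ]

theorem mk' {P : α → Prop} {R : α → γ → Prop} (hR : PrimrecPred fun p : α × γ => R p.1 p.2)
    (h : ∀ a, P a ↔ ∃ c, R a c) : SR P := by
  classical
  refine ⟨fun a n => (Option.casesOn (decode (α := γ) n) false fun c => decide (R a c) : Bool) = true,
    ?_, ?_⟩
  · have h1 : Primrec fun q : (α × ℕ) × γ => ((q.1.1, q.2) : α × γ) :=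
      Primrec.pair (Primrec.fst.comp Primrec.fst) Primrec.snd
    have h2 : PrimrecPred fun q : (α × ℕ) × γ => R q.1.1 q.2 := PrimrecPred.comp hR h1
    have h3 : Primrec fun q : (α × ℕ) × γ => decide (R q.1.1 q.2) := h2.decide
    have h4 : Primrec fun p : α × ℕ => (Option.casesOn (decode (α := γ) p.2) false
        fun c => decide (R p.1 c) : Bool) :=
      Primrec.option_casesOn (Primrec.decode.comp Primrec.snd) (Primrec.const false) h3
    exact PrimrecRel.comp Primrec.eq h4 (Primrec.const true)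
  · intro a
    rw [h]
    constructor
    · rintro ⟨c, hc⟩
      refine ⟨encode c, ?_⟩
      beta_reduce
      rw [encodek]
      exact decide_eq_true hc
    · rintro ⟨n, hn⟩
      cases hd : decode (α := γ) n with
      | none => rw [hd] at hn; exact absurd hn (by simp)
      | some c => rw [hd] at hn; exact ⟨c, of_decide_eq_true hn⟩

theorem of_prim {P : α → Prop} (h : PrimrecPred P) : SR P :=
  ⟨fun a _ => P a, h.comp Primrec.fst, fun _ => ⟨fun h => ⟨0, h⟩, fun ⟨_, h⟩ => h⟩⟩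

theorem of_iff {P Q : α → Prop} (h : SR P) (hi : ∀ a, Q a ↔ P a) : SR Q := by
  obtain ⟨R, hR, hP⟩ := h
  exact ⟨R, hR, fun a => (hi a).trans (hP a)⟩

theorem comp {P : α → Prop} (h : SR P) {f : β → α} (hf : Primrec f) : SR fun b => P (f b) := by
  obtain ⟨R, hR, hP⟩ := h
  exact ⟨fun b n => R (f b) n, PrimrecPred.comp (p := fun p : α × ℕ => R p.1 p.2) hR
    (Primrec.pair (hf.comp Primrec.fst) Primrec.snd), fun b => hP (f b)⟩

theorem and {P Q : α → Prop} (h1 : SR P) (h2 : SR Q) : SR fun a => P a ∧ Q a := by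
  obtain ⟨R, hR, hP⟩ := h1
  obtain ⟨S, hS, hQ⟩ := h2
  refine mk' (γ := ℕ × ℕ) (R := fun a c => R a c.1 ∧ S a c.2) ?_ fun a => ?_
  · have i1 : Primrec fun q : α × (ℕ × ℕ) => ((q.1, q.2.1) : α × ℕ) :=
      Primrec.pair Primrec.fst (Primrec.fst.comp Primrec.snd)
    have i2 : Primrec fun q : α × (ℕ × ℕ) => ((q.1, q.2.2) : α × ℕ) :=
      Primrec.pair Primrec.fst (Primrec.snd.comp Primrec.snd)
    exact (PrimrecPred.comp hR i1).and (PrimrecPred.comp hS i2)
  · rw [hP, hQ]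
    exact ⟨fun ⟨⟨n, hn⟩, ⟨m, hm⟩⟩ => ⟨(n, m), hn, hm⟩, fun ⟨c, hn, hm⟩ => ⟨⟨_, hn⟩, ⟨_, hm⟩⟩⟩

theorem or {P Q : α → Prop} (h1 : SR P) (h2 : SR Q) : SR fun a => P a ∨ Q a := by
  obtain ⟨R, hR, hP⟩ := h1
  obtain ⟨S, hS, hQ⟩ := h2
  refine ⟨fun a n => R a n ∨ S a n, hR.or hS, fun a => ?_⟩
  beta_reduce
  rw [hP, hQ]
  exact ⟨fun h => h.elim (fun ⟨n, hn⟩ => ⟨n, Or.inl hn⟩) fun ⟨n, hn⟩ => ⟨n, Or.inr hn⟩,
    fun ⟨n, h⟩ => h.elim (fun hn => Or.inl ⟨n, hn⟩) fun hn => Or.inr ⟨n, hn⟩⟩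

theorem imp {P Q : α → Prop} (h1 : PrimrecPred P) (h2 : SR Q) : SR fun a => P a → Q a :=
  ((of_prim h1.not).or h2).of_iff fun _ => imp_iff_not_or

theorem ex {P : α → β → Prop} (h : SR fun p : α × β => P p.1 p.2) : SR fun a => ∃ b, P a b := by
  obtain ⟨R, hR, hP⟩ := h
  refine mk' (γ := β × ℕ) (R := fun a c => R (a, c.1) c.2) ?_ fun a => ?_
  · have i1 : Primrec fun q : α × (β × ℕ) => (((q.1, q.2.1), q.2.2) : (α × β) × ℕ) :=
      Primrec.pair (Primrec.pair Primrec.fst (Primrec.fst.comp Primrec.snd))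
        (Primrec.snd.comp Primrec.snd)
    exact PrimrecPred.comp hR i1
  · constructor
    · rintro ⟨b, hb⟩
      obtain ⟨n, hn⟩ := (hP (a, b)).1 hb
      exact ⟨(b, n), hn⟩
    · rintro ⟨c, hc⟩
      exact ⟨c.1, (hP (a, c.1)).2 ⟨c.2, hc⟩⟩

theorem all {P : α → ℕ → Prop} {n : α → ℕ} (h : SR fun p : α × ℕ => P p.1 p.2) (hn : Primrec n) :
    SR fun a => ∀ i < n a, P a i := by
  obtain ⟨R, hR, hP⟩ := h
  refine mk' (γ := List ℕ) (R := fun a l => ∀ i < n a, R (a, i) (l.getD i 0)) ?_ fun a => ?_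
  · refine primrec_all (α := α × List ℕ) (R := fun q i => R (q.1, i) (q.2.getD i 0)) ?_
      (hn.comp Primrec.fst)
    have i0 : Primrec fun q : (α × List ℕ) × ℕ => q.1.2.getD q.2 0 :=
      (Primrec.list_getD 0).comp (Primrec.snd.comp Primrec.fst) Primrec.snd
    have i1 : Primrec fun q : (α × List ℕ) × ℕ =>
        (((q.1.1, q.2), q.1.2.getD q.2 0) : (α × ℕ) × ℕ) :=
      Primrec.pair (Primrec.pair (Primrec.fst.comp Primrec.fst) Primrec.snd) i0
    exact PrimrecPred.comp hR i1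
  · constructor
    · intro h
      have h1 : ∀ i, ∃ m, i < n a → R (a, i) m := by
        intro i
        by_cases hi : i < n a
        · obtain ⟨m, hm⟩ := (hP (a, i)).1 (h i hi)
          exact ⟨m, fun _ => hm⟩
        · exact ⟨0, fun h => absurd h hi⟩
      choose f hf using h1
      refine ⟨(List.range (n a)).map f, fun i hi => ?_⟩
      rw [getD_map_range _ _ _ _ hi]
      exact hf i hi
    · rintro ⟨l, hl⟩ i hi
      exact (hP (a, i)).2 ⟨_, hl i hi⟩

/-- search for a witness -/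
theorem find {P : α → ℕ → Prop} (h : SR fun p : α × ℕ => P p.1 p.2) {Phi : ℕ → ℕ}
    (hPhi : Primrec Phi) : ∃ A : α →. ℕ, Partrec A ∧ (∀ a, ∀ b ∈ A a, ∃ Z, P a Z ∧ b = Phi Z) ∧
      ∀ a Z, P a Z → (A a).Dom := by
  obtain ⟨R, hR, hP⟩ := h
  obtain ⟨A, hA, h1, h2⟩ := search (α := α) (W := ℕ × ℕ) (R := fun a w => R (a, w.1) w.2) (by
      have i1 : Primrec fun q : α × (ℕ × ℕ) => (((q.1, q.2.1), q.2.2) : (α × ℕ) × ℕ) :=
        Primrec.pair (Primrec.pair Primrec.fst (Primrec.fst.comp Primrec.snd))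
          (Primrec.snd.comp Primrec.snd)
      exact PrimrecPred.comp hR i1) (f := fun _ w => Phi w.1)
      (hPhi.comp (Primrec.fst.comp Primrec.snd))
  refine ⟨A, hA, fun a b hb => ?_, fun a Z hZ => ?_⟩
  · obtain ⟨w, hw, hb'⟩ := h1 a b hb
    exact ⟨w.1, (hP (a, w.1)).2 ⟨w.2, hw⟩, hb'⟩
  · obtain ⟨n, hn⟩ := (hP (a, Z)).1 hZ
    exact h2 a (Z, n) hn

end SR

end Pool.Agent.H69.SFA
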