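import Pool.Agent.H69.SFA.Lst

/-!
# [H69 SFA Srch] THEOREM SF, clause (4), chapter K3: the search for a certificate
-/

namespace Pool.Agent.H69.SFA

open Encodable

/-- search for a witness: the partial recursive function which is defined if there is a witness, and whose value is
`f a w` for some witness `w` -/
theorem search {α W : Type*} [Primcodable α] [Primcodable W] {R : α → W → Prop}
    (hR : PrimrecPred fun p : α × W => R p.1 p.2) {f : α → W → ℕ} (hf : Primrec₂ f) :
    ∃ A : α →. ℕ, Partrec A ∧ (∀ a, ∀ b ∈ A a, ∃ w, R a w ∧ b = f a w) ∧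
      ∀ a w, R a w → (A a).Dom := by
  classical
  obtain ⟨g, hg⟩ : ∃ g : α → ℕ → Option ℕ, g = fun a n =>
      (decode (α := W) n).bind fun w => if R a w then some (f a w) else none := ⟨_, rfl⟩
  have hgp : Primrec₂ g := by
    rw [hg]
    refine Primrec.option_bind (Primrec.decode.comp Primrec.snd) ?_
    have h1 : Primrec fun q : (α × ℕ) × W => (q.1.1, q.2) :=
      Primrec.pair (Primrec.fst.comp Primrec.fst) Primrec.snd
    have h2 : PrimrecPred fun q : (α × ℕ) × W => R q.1.1 q.2 := PrimrecPred.comp hR h1
    have h3 : Primrec fun q : (α × ℕ) × W => f q.1.1 q.2 :=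
      Primrec₂.comp hf (Primrec.fst.comp Primrec.fst) Primrec.snd
    exact Primrec.ite h2 (Primrec.option_some.comp h3) (Primrec.const none)
  refine ⟨fun a => Nat.rfindOpt (g a), Partrec.rfindOpt hgp.to_comp, ?_, ?_⟩
  · intro a b hb
    obtain ⟨n, hn⟩ := Nat.rfindOpt_spec hb
    rw [hg] at hn
    have hn' : (decode (α := W) n).bind (fun w => if R a w then some (f a w) else none) = some b := hn
    obtain ⟨w, _, hw⟩ := Option.bind_eq_some_iff.1 hn'
    by_cases h : R a w
    · rw [if_pos h] at hw
      exact ⟨w, h, (Option.some_injective _ hw).symm⟩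
    · rw [if_neg h] at hw
      exact absurd hw (by simp)
  · intro a w h
    refine Nat.rfindOpt_dom.2 ⟨encode w, f a w, ?_⟩
    rw [hg]
    show f a w ∈ (decode (α := W) (encode w)).bind (fun w => if R a w then some (f a w) else none)
    rw [encodek, Option.bind_some, if_pos h]
    rfl

end Pool.Agent.H69.SFA
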